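import Pool.Agent.W38.TO.Rev

/-! Types of edges in terms of arcs. -/

set_option autoImplicit false
open Finset

namespace Pool.Agent.W38.TO

open Pool.Agent.H122R2.FdF

open scoped Classical

theorem hasType_iff {n : ℕ} {R : Fin n → Fin n → Prop} (hO : Oriented R)
    {H : Finset (Finset (Fin n))} (h3 : ∀ e ∈ H, e.card = 3)
    (P : Fin n → Fin n → Fin n → Prop) {x y z t : ℕ} (hx : x < 3) (hy : y < 3) (hz : z < 3)
    (ht : tyN (cd x y z) = t)
    (hP : ∀ a b c, P a b c ↔ rl R a b = x ∧ rl R a c = y ∧ rl R b c = z) :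
    HasType R H t ↔ ∃ a b c, ({a, b, c} : Finset (Fin n)) ∈ H ∧ P a b c := by
  constructor
  · rintro ⟨a, b, c, hab, hac, hbc, hc, hH⟩
    have hp := perm_codes (rl_lt R a b) (rl_lt R a c) (rl_lt R b c) hx hy hz
      (show tyN (cd (rl R a b) (rl R a c) (rl R b c)) = _ from hc.trans ht.symm)
    rw [← rl_iv hO a b, ← rl_iv hO a c, ← rl_iv hO b c] at hp
    rcases hp with h | h | h | h | h | h
    · exact ⟨a, b, c, hH, (hP _ _ _).mpr (cd_inj (rl_lt R _ _) (rl_lt R _ _) hx hy h)⟩
    · refine ⟨a, c, b, ?_, (hP _ _ _).mpr (cd_inj (rl_lt R _ _) (rl_lt R _ _) hx hy h)⟩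
      rw [pair_comm c b]; exact hH
    · refine ⟨b, a, c, ?_, (hP _ _ _).mpr (cd_inj (rl_lt R _ _) (rl_lt R _ _) hx hy h)⟩
      rw [insert_comm b a]; exact hH
    · refine ⟨b, c, a, ?_, (hP _ _ _).mpr (cd_inj (rl_lt R _ _) (rl_lt R _ _) hx hy h)⟩
      rw [pair_comm c a, insert_comm b a]; exact hH
    · refine ⟨c, a, b, ?_, (hP _ _ _).mpr (cd_inj (rl_lt R _ _) (rl_lt R _ _) hx hy h)⟩
      rw [insert_comm c a, pair_comm c b]; exact hH
    · refine ⟨c, b, a, ?_, (hP _ _ _).mpr (cd_inj (rl_lt R _ _) (rl_lt R _ _) hx hy h)⟩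
      rw [pair_comm b a, insert_comm c a, pair_comm c b]; exact hH
  · rintro ⟨a, b, c, hH, hPa⟩
    obtain ⟨hab, hac, hbc⟩ := card_of_triple (h3 _ hH)
    obtain ⟨e1, e2, e3⟩ := (hP a b c).mp hPa
    refine ⟨a, b, c, hab, hac, hbc, ?_, hH⟩
    unfold code
    rw [e1, e2, e3, ht]

theorem rl_one {n : ℕ} {R : Fin n → Fin n → Prop} (x y : Fin n) : rl R x y = 1 ↔ R x y := by
  unfold rl
  split_ifs with h h' <;> simp_all

theorem rl_two {n : ℕ} {R : Fin n → Fin n → Prop} (hO : Oriented R) (x y : Fin n) :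
    rl R x y = 2 ↔ R y x := by
  have := hO x y
  unfold rl
  split_ifs with h h' <;> simp_all

theorem rl_zero {n : ℕ} {R : Fin n → Fin n → Prop} (x y : Fin n) :
    rl R x y = 0 ↔ ¬ R x y ∧ ¬ R y x := by
  unfold rl
  split_ifs with h h' <;> simp_all

/-- alike triples from the formulation with maps -/
theorem alike_of {n : ℕ} {R : Fin n → Fin n → Prop} (hO : Oriented R)
    {H : Finset (Finset (Fin n))}
    (hE : ∀ (s : Finset (Fin n)) (f : Fin n → Fin n), s.card = 3 → Set.InjOn f (s : Set (Fin n)) →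
      (∀ x ∈ s, ∀ y ∈ s, (R x y ↔ R (f x) (f y))) → (s ∈ H ↔ s.image f ∈ H)) : Alike R H := by
  intro a b c a' b' c' hab hac hbc hab' hac' hbc' h1 h2 h3 h4 h5 h6
  have ir : ∀ x, ¬ R x x := fun x h => hO x x h h
  set f : Fin n → Fin n := fun x => if x = a then a' else if x = b then b' else c' with hf
  have fa : f a = a' := by rw [hf]; simp
  have fb : f b = b' := by rw [hf]; simp [hab.symm]
  have fc : f c = c' := by rw [hf]; simp [hac.symm, hbc.symm]
  have hc : ({a, b, c} : Finset (Fin n)).card = 3 := by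
    rw [card_insert_of_notMem, card_insert_of_notMem, card_singleton] <;> simp [hab, hac, hbc]
  have h := hE {a, b, c} f hc ?_ ?_
  · rw [h]
    have : image f {a, b, c} = {a', b', c'} := by
      rw [image_insert, image_insert, image_singleton, fa, fb, fc]
    rw [this]
  · intro x hx y hy hxy
    simp only [coe_insert, coe_singleton, Set.mem_insert_iff, Set.mem_singleton_iff] at hx hy
    rcases hx with rfl | rfl | rfl <;> rcases hy with rfl | rfl | rfl <;>
      simp only [fa, fb, fc] at hxy <;>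
      first
        | rfl
        | exact absurd hxy hab'
        | exact absurd hxy hac'
        | exact absurd hxy hbc'
        | exact absurd hxy.symm hab'
        | exact absurd hxy.symm hac'
        | exact absurd hxy.symm hbc'
  · intro x hx y hy
    simp only [mem_insert, mem_singleton] at hx hy
    rcases hx with rfl | rfl | rfl <;> rcases hy with rfl | rfl | rfl <;>
      simp only [fa, fb, fc] <;> first | assumption | (simp only [ir])

end Pool.Agent.W38.TO
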