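import Pool.Agent.W38.TO.Kern4
import Pool.Agent.H122R2.FdF.TaskK2

/-! From 3-graphs encoded by an oriented graph to codes. -/

set_option autoImplicit false
set_option maxRecDepth 100000
open Finset

namespace Pool.Agent.W38.TO

open Pool.Agent.H122R2.FdF

def iv (x : ℕ) : ℕ := (3 - x) % 3

def pcB : Bool := nall 3 fun x => nall 3 fun y => nall 3 fun z => nall 3 fun u => nall 3 fun v =>
  nall 3 fun w => or (not (Nat.beq (tyN (cd x y z)) (tyN (cd u v w))))
    (or (Nat.beq (cd x y z) (cd u v w)) (or (Nat.beq (cd y x (iv z)) (cd u v w))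
    (or (Nat.beq (cd (iv x) z y) (cd u v w)) (or (Nat.beq (cd z (iv x) (iv y)) (cd u v w))
    (or (Nat.beq (cd (iv y) (iv z) x) (cd u v w)) (Nat.beq (cd (iv z) (iv y) (iv x)) (cd u v w)))))))

theorem pcB_true : pcB = true := by decide +kernel

theorem perm_codes {x y z u v w : ℕ} (hx : x < 3) (hy : y < 3) (hz : z < 3) (hu : u < 3)
    (hv : v < 3) (hw : w < 3) (h : tyN (cd x y z) = tyN (cd u v w)) :
    (cd x y z = cd u v w ∨ cd y x (iv z) = cd u v w ∨ cd (iv x) z y = cd u v w ∨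
      cd z (iv x) (iv y) = cd u v w ∨ cd (iv y) (iv z) x = cd u v w ∨
      cd (iv z) (iv y) (iv x) = cd u v w) := by
  have h1 := nall_true (nall_true (nall_true (nall_true (nall_true (nall_true pcB_true x hx) y hy)
    z hz) u hu) v hv) w hw
  simp only [Bool.or_eq_true, Bool.not_eq_true', Nat.beq_eq] at h1
  rcases h1 with h1 | h1
  · rw [h] at h1
    have h2 : Nat.beq (tyN (cd u v w)) (tyN (cd u v w)) = true := Nat.beq_refl _
    rw [h1] at h2
    exact absurd h2 (by decide)
  · exact h1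

theorem bt_spec : ∀ M < 128, ∀ c < 27, eN (bt M) c = eN M (tyN c) := by decide +kernel

theorem tyN_lt : ∀ c < 27, tyN c < 7 := by decide +kernel

open scoped Classical

/-- the 3-graph `H` has no four vertices spanning all four triples -/
def KF {n : ℕ} (H : Finset (Finset (Fin n))) : Prop :=
  ∀ S : Finset (Fin n), S.card = 4 → ∃ s ⊆ S, s.card = 3 ∧ s ∉ H

/-- code of the relations of three vertices -/
noncomputable def code {n : ℕ} (R : Fin n → Fin n → Prop) (a b c : Fin n) : ℕ :=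
  cd (rl R a b) (rl R a c) (rl R b c)

/-- membership in `H` is given by the table `B` -/
def Enc {n : ℕ} (B : ℕ) (R : Fin n → Fin n → Prop) (H : Finset (Finset (Fin n))) : Prop :=
  ∀ a b c : Fin n, a ≠ b → a ≠ c → b ≠ c → (({a, b, c} : Finset (Fin n)) ∈ H ↔
    eN B (code R a b c) = 1)

theorem six_le {n : ℕ} {H : Finset (Finset (Fin n))} (hH : ∀ e ∈ H, e.card = 3) :
    6 * H.card ≤ ∑ a : Fin n, ∑ b : Fin n, ∑ c : Fin n,
      (if ({a, b, c} : Finset (Fin n)) ∈ H then 1 else 0) := by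
  set T : Finset (Fin n × Fin n × Fin n) :=
    univ.filter fun t => ({t.1, t.2.1, t.2.2} : Finset (Fin n)) ∈ H with hT
  have e : ∑ a : Fin n, ∑ b : Fin n, ∑ c : Fin n,
      (if ({a, b, c} : Finset (Fin n)) ∈ H then 1 else 0) = T.card := by
    rw [hT, Finset.card_filter, Fintype.sum_prod_type]
    refine sum_congr rfl fun a _ => ?_
    rw [Fintype.sum_prod_type]
  have hfw := card_eq_sum_card_fiberwise (s := T)
    (f := fun t : Fin n × Fin n × Fin n => ({t.1, t.2.1, t.2.2} : Finset (Fin n)))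
    (t := H) (fun t ht => (mem_filter.mp (mem_coe.mp ht)).2)
  rw [e, hfw, mul_comm, ← smul_eq_mul, ← sum_const]
  refine sum_le_sum fun s hs => ?_
  obtain ⟨x, y, z, hxy, hxz, hyz, rfl⟩ := Finset.card_eq_three.mp (hH s hs)
  have h6 : ({(x, y, z), (x, z, y), (y, x, z), (y, z, x), (z, x, y), (z, y, x)} :
      Finset (Fin n × Fin n × Fin n)).card = 6 := by
    rw [card_insert_of_notMem, card_insert_of_notMem, card_insert_of_notMem,
      card_insert_of_notMem, card_insert_of_notMem, card_singleton] <;>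
    simp [hxy, hxz, hyz, hxy.symm, hxz.symm, hyz.symm]
  rw [← h6]
  have key : ∀ u v w : Fin n, ({u, v, w} : Finset (Fin n)) = {x, y, z} →
      (u, v, w) ∈ T.filter (fun t : Fin n × Fin n × Fin n =>
        ({t.1, t.2.1, t.2.2} : Finset (Fin n)) = {x, y, z}) := by
    intro u v w h
    have hm : ({u, v, w} : Finset (Fin n)) ∈ H := by rw [h]; exact hs
    rw [mem_filter, hT, mem_filter]
    exact ⟨⟨mem_univ _, hm⟩, h⟩
  refine card_le_card ?_
  intro t ht
  simp only [mem_insert, mem_singleton] at ht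
  rcases ht with h | h | h | h | h | h <;> rw [h]
  · exact key x y z rfl
  · exact key x z y (by rw [pair_comm z y])
  · exact key y x z (insert_comm _ _ _)
  · exact key y z x (by rw [pair_comm z x, insert_comm])
  · exact key z x y (by rw [insert_comm z x, pair_comm z y])
  · exact key z y x (by rw [pair_comm y x, insert_comm z x, pair_comm z y])

theorem card_of_triple {n : ℕ} {a b c : Fin n} (h : ({a, b, c} : Finset (Fin n)).card = 3) :
    a ≠ b ∧ a ≠ c ∧ b ≠ c := by
  refine ⟨?_, ?_, ?_⟩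
  · rintro rfl
    have : ({a, a, c} : Finset (Fin n)).card ≤ 2 := by
      rw [insert_eq_of_mem (mem_insert_self a {c})]
      exact card_le_two
    omega
  · rintro rfl
    have : ({a, b, a} : Finset (Fin n)).card ≤ 2 := by
      rw [insert_eq_of_mem (by simp : a ∈ ({b, a} : Finset (Fin n)))]
      exact card_le_two
    omega
  · rintro rfl
    have : ({a, b, b} : Finset (Fin n)).card ≤ 2 := by
      have : ({b, b} : Finset (Fin n)) = {b} := by simp
      rw [this]
      exact card_le_two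
    omega

theorem four_sets {n : ℕ} {H : Finset (Finset (Fin n))} (hK : KF H) {a b c d : Fin n}
    (hab : a ≠ b) (hac : a ≠ c) (had : a ≠ d) (hbc : b ≠ c) (hbd : b ≠ d) (hcd : c ≠ d)
    (h1 : ({a, b, c} : Finset (Fin n)) ∈ H) (h2 : ({a, b, d} : Finset (Fin n)) ∈ H)
    (h3 : ({a, c, d} : Finset (Fin n)) ∈ H) (h4 : ({b, c, d} : Finset (Fin n)) ∈ H) : False := by
  have hc : ({a, b, c, d} : Finset (Fin n)).card = 4 := by
    rw [card_insert_of_notMem, card_insert_of_notMem, card_insert_of_notMem, card_singleton] <;>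
    simp [hab, hac, had, hbc, hbd, hcd]
  obtain ⟨s, hs, hs3, hsH⟩ := hK _ hc
  have h5 : (({a, b, c, d} : Finset (Fin n)) \ s).card = 1 := by
    rw [card_sdiff_of_subset hs, hc, hs3]
  obtain ⟨v, hv⟩ := Finset.card_eq_one.mp h5
  have hse : s = ({a, b, c, d} : Finset (Fin n)) \ {v} := by
    rw [← hv, sdiff_sdiff_right_self]
    exact (inf_eq_right.mpr hs).symm
  have hvm : v ∈ ({a, b, c, d} : Finset (Fin n)) := by
    have : v ∈ ({a, b, c, d} : Finset (Fin n)) \ s := by rw [hv]; simp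
    exact (mem_sdiff.mp this).1
  simp only [mem_insert, mem_singleton] at hvm
  have e1 : ({a, b, c, d} : Finset (Fin n)) \ {a} = {b, c, d} := by
    ext w; simp only [mem_sdiff, mem_insert, mem_singleton]
    constructor
    · rintro ⟨h | h, h'⟩
      · exact absurd h h'
      · exact h
    · intro h
      refine ⟨Or.inr h, ?_⟩
      rintro rfl
      rcases h with h | h | h <;> contradiction
  have e2 : ({a, b, c, d} : Finset (Fin n)) \ {b} = {a, c, d} := by
    ext w; simp only [mem_sdiff, mem_insert, mem_singleton]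
    constructor
    · rintro ⟨h | h | h, h'⟩
      · exact Or.inl h
      · exact absurd h h'
      · exact Or.inr h
    · rintro (h | h | h)
      · exact ⟨Or.inl h, by rw [h]; exact hab⟩
      · exact ⟨Or.inr (Or.inr (Or.inl h)), by rw [h]; exact hbc.symm⟩
      · exact ⟨Or.inr (Or.inr (Or.inr h)), by rw [h]; exact hbd.symm⟩
  have e3 : ({a, b, c, d} : Finset (Fin n)) \ {c} = {a, b, d} := by
    ext w; simp only [mem_sdiff, mem_insert, mem_singleton]
    constructor
    · rintro ⟨h | h | h | h, h'⟩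
      · exact Or.inl h
      · exact Or.inr (Or.inl h)
      · exact absurd h h'
      · exact Or.inr (Or.inr h)
    · rintro (h | h | h)
      · exact ⟨Or.inl h, by rw [h]; exact hac⟩
      · exact ⟨Or.inr (Or.inl h), by rw [h]; exact hbc⟩
      · exact ⟨Or.inr (Or.inr (Or.inr h)), by rw [h]; exact hcd.symm⟩
  have e4 : ({a, b, c, d} : Finset (Fin n)) \ {d} = {a, b, c} := by
    ext w; simp only [mem_sdiff, mem_insert, mem_singleton]
    constructor
    · rintro ⟨h | h | h | h, h'⟩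
      · exact Or.inl h
      · exact Or.inr (Or.inl h)
      · exact Or.inr (Or.inr h)
      · exact absurd h h'
    · rintro (h | h | h)
      · exact ⟨Or.inl h, by rw [h]; exact had⟩
      · exact ⟨Or.inr (Or.inl h), by rw [h]; exact hbd⟩
      · exact ⟨Or.inr (Or.inr (Or.inl h)), by rw [h]; exact hcd⟩
  rcases hvm with rfl | rfl | rfl | rfl
  · exact hsH (by rw [hse, e1]; exact h4)
  · exact hsH (by rw [hse, e2]; exact h3)
  · exact hsH (by rw [hse, e3]; exact h2)
  · exact hsH (by rw [hse, e4]; exact h1)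

theorem no_four {n : ℕ} {B : ℕ} {R : Fin n → Fin n → Prop} {H : Finset (Finset (Fin n))}
    (hE : Enc B R H) (hK : KF H) (x : Fin 4 → Fin n) (hx : Function.Injective x) :
    fourN B (rl R (x 0) (x 1)) (rl R (x 0) (x 2)) (rl R (x 0) (x 3)) (rl R (x 1) (x 2))
      (rl R (x 1) (x 3)) (rl R (x 2) (x 3)) ≠ 4 := by
  intro h
  unfold fourN at h
  simp only [Nat.add_eq] at h
  have l1 := eN_le B (cd (rl R (x 0) (x 1)) (rl R (x 0) (x 2)) (rl R (x 1) (x 2)))
  have l2 := eN_le B (cd (rl R (x 0) (x 1)) (rl R (x 0) (x 3)) (rl R (x 1) (x 3)))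
  have l3 := eN_le B (cd (rl R (x 0) (x 2)) (rl R (x 0) (x 3)) (rl R (x 2) (x 3)))
  have l4 := eN_le B (cd (rl R (x 1) (x 2)) (rl R (x 1) (x 3)) (rl R (x 2) (x 3)))
  have n01 : x 0 ≠ x 1 := fun h => absurd (hx h) (by decide)
  have n02 : x 0 ≠ x 2 := fun h => absurd (hx h) (by decide)
  have n03 : x 0 ≠ x 3 := fun h => absurd (hx h) (by decide)
  have n12 : x 1 ≠ x 2 := fun h => absurd (hx h) (by decide)
  have n13 : x 1 ≠ x 3 := fun h => absurd (hx h) (by decide)
  have n23 : x 2 ≠ x 3 := fun h => absurd (hx h) (by decide)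
  exact four_sets hK n01 n02 n03 n12 n13 n23
    ((hE _ _ _ n01 n02 n12).mpr (by unfold code; omega))
    ((hE _ _ _ n01 n03 n13).mpr (by unfold code; omega))
    ((hE _ _ _ n02 n03 n23).mpr (by unfold code; omega))
    ((hE _ _ _ n12 n13 n23).mpr (by unfold code; omega))

theorem card_le_sum {n : ℕ} {B : ℕ} {R : Fin n → Fin n → Prop} {H : Finset (Finset (Fin n))}
    (h3 : ∀ e ∈ H, e.card = 3) (hE : Enc B R H) :
    6 * (H.card : ℤ) ≤ ∑ a, ∑ b, ∑ c, EE (rl R) (fun c => (eN B c : ℤ)) a b c := by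
  have h1 := six_le h3
  have h2 : (∑ a : Fin n, ∑ b : Fin n, ∑ c : Fin n,
      (if ({a, b, c} : Finset (Fin n)) ∈ H then 1 else 0))
      ≤ ∑ a : Fin n, ∑ b : Fin n, ∑ c : Fin n, eN B (code R a b c) := by
    refine sum_le_sum fun a _ => sum_le_sum fun b _ => sum_le_sum fun c _ => ?_
    split_ifs with h
    · obtain ⟨hab, hac, hbc⟩ := card_of_triple (h3 _ h)
      rw [(hE a b c hab hac hbc).mp h]
    · exact Nat.zero_le _
  have h4 : ((6 * H.card : ℕ) : ℤ) ≤ ((∑ a : Fin n, ∑ b : Fin n, ∑ c : Fin n,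
      eN B (code R a b c) : ℕ) : ℤ) := by exact_mod_cast le_trans h1 h2
  push_cast at h4
  exact h4

theorem bound4 {n : ℕ} {M B T L D K κ X1 X2 : ℕ} (h : chk M B T L D K κ X1 X2 = true)
    (hKp : 0 < K) {R : Fin n → Fin n → Prop} (hO : Oriented R) {H : Finset (Finset (Fin n))}
    (h3 : ∀ e ∈ H, e.card = 3) (hK : KF H) (hE : Enc B R H) :
    (H.card : ℝ) ≤ 5 / 54 * (n : ℝ) ^ 3 + 40 / 9 * (n : ℝ) ^ 2 := by
  rcases Nat.eq_zero_or_pos n with rfl | hn
  · have : H.card = 0 := by
      rw [card_eq_zero, eq_empty_iff_forall_notMem]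
      intro e he
      have h5 := h3 e he
      have h6 : e = ∅ := by
        ext v; exact v.elim0
      rw [h6] at h5
      simp at h5
    rw [this]
    norm_num
  · have h1 := sound h (rl R) (rl_pr R hO) (no_four hE hK)
    have h2 := card_le_sum h3 hE
    rw [Fintype.card_fin] at h1
    have hnz : (0 : ℤ) < (n : ℤ) := by exact_mod_cast hn
    have hKz : (0 : ℤ) < (K : ℤ) := by exact_mod_cast hKp
    have h4 : 36 * (K : ℤ) * (n : ℤ) * (6 * (H.card : ℤ))
        ≤ 20 * (K : ℤ) * (n : ℤ) ^ 4 + 960 * (K : ℤ) * (n : ℤ) ^ 3 :=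
      le_trans (mul_le_mul_of_nonneg_left h2 (by positivity)) h1
    have h5 : (K : ℤ) * (n : ℤ) * (216 * (H.card : ℤ))
        ≤ (K : ℤ) * (n : ℤ) * (20 * (n : ℤ) ^ 3 + 960 * (n : ℤ) ^ 2) := by
      calc (K : ℤ) * (n : ℤ) * (216 * (H.card : ℤ))
          = 36 * (K : ℤ) * (n : ℤ) * (6 * (H.card : ℤ)) := by ring
        _ ≤ _ := h4
        _ = _ := by ring
    have h6 := le_of_mul_le_mul_left h5 (by positivity)
    have h7 : (216 * (H.card : ℝ)) ≤ 20 * (n : ℝ) ^ 3 + 960 * (n : ℝ) ^ 2 := by exact_mod_cast h6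
    linarith

/-! ### the rule of an encoded 3-graph -/

theorem rl_iv {n : ℕ} {R : Fin n → Fin n → Prop} (hO : Oriented R) (x y : Fin n) :
    rl R y x = iv (rl R x y) := by
  rcases rl_pr R hO x y with ⟨h, h'⟩ | ⟨h, h'⟩ | ⟨h, h'⟩ <;> rw [h, h'] <;> rfl

theorem cd_inj {x y z u v w : ℕ} (hx : x < 3) (hy : y < 3) (hu : u < 3) (hv : v < 3)
    (h : cd x y z = cd u v w) : x = u ∧ y = v ∧ z = w := by
  unfold cd at h
  simp only [Nat.add_eq, Nat.mul_eq] at h
  omega

theorem rl_iff {n : ℕ} {R : Fin n → Fin n → Prop} (hO : Oriented R) {a b a' b' : Fin n}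
    (h : rl R a b = rl R a' b') : (R a b ↔ R a' b') ∧ (R b a ↔ R b' a') := by
  have h1 := hO a b
  have h2 := hO a' b'
  unfold rl at h
  by_cases p : R a b <;> by_cases q : R b a <;> by_cases p' : R a' b' <;> by_cases q' : R b' a' <;>
    simp_all

/-- isomorphic triples are alike -/
def Alike {n : ℕ} (R : Fin n → Fin n → Prop) (H : Finset (Finset (Fin n))) : Prop :=
  ∀ a b c a' b' c' : Fin n, a ≠ b → a ≠ c → b ≠ c → a' ≠ b' → a' ≠ c' → b' ≠ c' →
    (R a b ↔ R a' b') → (R b a ↔ R b' a') → (R a c ↔ R a' c') → (R c a ↔ R c' a') →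
    (R b c ↔ R b' c') → (R c b ↔ R c' b') →
    (({a, b, c} : Finset (Fin n)) ∈ H ↔ ({a', b', c'} : Finset (Fin n)) ∈ H)

theorem alike_code {n : ℕ} {R : Fin n → Fin n → Prop} {H : Finset (Finset (Fin n))}
    (hO : Oriented R) (hA : Alike R H) {a b c a' b' c' : Fin n} (hab : a ≠ b) (hac : a ≠ c)
    (hbc : b ≠ c) (hab' : a' ≠ b') (hac' : a' ≠ c') (hbc' : b' ≠ c')
    (h : code R a b c = code R a' b' c') :
    (({a, b, c} : Finset (Fin n)) ∈ H ↔ ({a', b', c'} : Finset (Fin n)) ∈ H) := by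
  obtain ⟨h1, h2, h3⟩ := cd_inj (rl_lt R _ _) (rl_lt R _ _) (rl_lt R _ _) (rl_lt R _ _) h
  exact hA a b c a' b' c' hab hac hbc hab' hac' hbc' (rl_iff hO h1).1 (rl_iff hO h1).2
    (rl_iff hO h2).1 (rl_iff hO h2).2 (rl_iff hO h3).1 (rl_iff hO h3).2

theorem alike_type {n : ℕ} {R : Fin n → Fin n → Prop} {H : Finset (Finset (Fin n))}
    (hO : Oriented R) (hA : Alike R H) {a b c a' b' c' : Fin n} (hab : a ≠ b) (hac : a ≠ c)
    (hbc : b ≠ c) (hab' : a' ≠ b') (hac' : a' ≠ c') (hbc' : b' ≠ c')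
    (h : tyN (code R a b c) = tyN (code R a' b' c')) :
    (({a, b, c} : Finset (Fin n)) ∈ H ↔ ({a', b', c'} : Finset (Fin n)) ∈ H) := by
  have hp := perm_codes (rl_lt R a b) (rl_lt R a c) (rl_lt R b c) (rl_lt R a' b')
    (rl_lt R a' c') (rl_lt R b' c') h
  rw [← rl_iv hO a b, ← rl_iv hO a c, ← rl_iv hO b c] at hp
  rcases hp with h | h | h | h | h | h
  · exact alike_code hO hA hab hac hbc hab' hac' hbc' h
  · have e : ({a, b, c} : Finset (Fin n)) = {a, c, b} := by rw [pair_comm c b]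
    rw [e]
    exact alike_code hO hA hac hab hbc.symm hab' hac' hbc' h
  · have e : ({a, b, c} : Finset (Fin n)) = {b, a, c} := insert_comm _ _ _
    rw [e]
    exact alike_code hO hA hab.symm hbc hac hab' hac' hbc' h
  · have e : ({a, b, c} : Finset (Fin n)) = {b, c, a} := by rw [insert_comm a b, pair_comm a c]
    rw [e]
    exact alike_code hO hA hbc hab.symm hac.symm hab' hac' hbc' h
  · have e : ({a, b, c} : Finset (Fin n)) = {c, a, b} := by
      rw [pair_comm b c, insert_comm a c]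
    rw [e]
    exact alike_code hO hA hac.symm hbc.symm hab hab' hac' hbc' h
  · have e : ({a, b, c} : Finset (Fin n)) = {c, b, a} := by
      rw [pair_comm b c, insert_comm a c, pair_comm a b]
    rw [e]
    exact alike_code hO hA hbc.symm hac.symm hab.symm hab' hac' hbc' h

theorem bits7 (b : ℕ → ℕ) (hb : ∀ t, b t ≤ 1) (t : ℕ) (ht : t < 7) :
    eN (∑ t ∈ range 7, b t * 2 ^ t) t = b t := by
  have h0 := hb 0
  have h1 := hb 1
  have h2 := hb 2
  have h3 := hb 3
  have h4 := hb 4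
  have h5 := hb 5
  have h6 := hb 6
  simp only [sum_range_succ, sum_range_zero, zero_add, pow_zero, mul_one]
  have e : ∀ v t : ℕ, eN v t = v / 2 ^ t % 2 := fun v t => by
    unfold eN
    show (v >>> t) % 2 = _
    rw [Nat.shiftRight_eq_div_pow]
  rw [e]
  interval_cases t <;> norm_num <;> omega

theorem code_lt {n : ℕ} (R : Fin n → Fin n → Prop) (a b c : Fin n) : code R a b c < 27 := by
  have h1 := rl_lt R a b
  have h2 := rl_lt R a c
  have h3 := rl_lt R b c
  unfold code cd
  simp only [Nat.add_eq, Nat.mul_eq]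
  omega

/-- an edge of type `t` exists -/
def HasType {n : ℕ} (R : Fin n → Fin n → Prop) (H : Finset (Finset (Fin n))) (t : ℕ) : Prop :=
  ∃ a b c : Fin n, a ≠ b ∧ a ≠ c ∧ b ≠ c ∧ tyN (code R a b c) = t ∧
    ({a, b, c} : Finset (Fin n)) ∈ H

noncomputable def rule {n : ℕ} (R : Fin n → Fin n → Prop) (H : Finset (Finset (Fin n))) : ℕ :=
  ∑ t ∈ range 7, (if HasType R H t then 1 else 0) * 2 ^ t

theorem rule_bit {n : ℕ} (R : Fin n → Fin n → Prop) (H : Finset (Finset (Fin n))) (t : ℕ)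
    (ht : t < 7) : eN (rule R H) t = if HasType R H t then 1 else 0 :=
  bits7 (fun t => if HasType R H t then 1 else 0) (fun t => by split_ifs <;> omega) t ht

theorem sum7_lt (b : ℕ → ℕ) (hb : ∀ t, b t ≤ 1) : ∑ t ∈ range 7, b t * 2 ^ t < 128 := by
  have h0 := hb 0
  have h1 := hb 1
  have h2 := hb 2
  have h3 := hb 3
  have h4 := hb 4
  have h5 := hb 5
  have h6 := hb 6
  simp only [sum_range_succ, sum_range_zero, zero_add, pow_zero, mul_one]
  norm_num
  omega

theorem rule_lt {n : ℕ} (R : Fin n → Fin n → Prop) (H : Finset (Finset (Fin n))) :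
    rule R H < 128 :=
  sum7_lt (fun t => if HasType R H t then 1 else 0) (fun t => by split_ifs <;> omega)

theorem enc_rule {n : ℕ} {R : Fin n → Fin n → Prop} {H : Finset (Finset (Fin n))}
    (hO : Oriented R) (hA : Alike R H) : Enc (bt (rule R H)) R H := by
  intro a b c hab hac hbc
  rw [bt_spec _ (rule_lt R H) _ (code_lt R a b c), rule_bit R H _ (tyN_lt _ (code_lt R a b c))]
  constructor
  · intro h
    rw [if_pos ⟨a, b, c, hab, hac, hbc, rfl, h⟩]
  · intro h
    split_ifs at h with h1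
    obtain ⟨a', b', c', hab', hac', hbc', ht, hH⟩ := h1
    exact (alike_type hO hA hab hac hbc hab' hac' hbc' ht.symm).mpr hH

end Pool.Agent.W38.TO
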