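import Pool.Agent.W38.TO.Sum5
import Pool.Agent.W38.TO.Bridge

/-! Kernel-reducible checker for the certificates with five vertices. -/

set_option autoImplicit false
set_option maxRecDepth 100000
open Finset

namespace Pool.Agent.W38.TO

open Pool.Agent.H122R2.FdF

/-- permutation of attachment codes to the canonical labelling of a triple -/
def pa (c i : ℕ) : ℕ := Nat.mod (Nat.shiftRight 0x1a8a2ee2d162cc0f66926a0e1e6ab07248357a45cb41459b4e0d51c81c564f624c306af48b96828b369c1aa39038ac9ec49860d671183d0735ed57358520e9392d491041ace2307a0e6bdaae6b0a41d2725a92208357a45cb41459b4e0d51c81c564f624c306a28cc0f879aee2d9a4ab07458a6a0c920d5e99b4f15945cb8354f6250511c8130c1a8a2ee2d162cc0f66926a0e1e6ab0724835146607c3cd7716cd25583a2c535064906b38bdab49ca307b9ac5a928398a418820d45177168b16607b34935070f355839241abd3369e2b28b9706a9ec4a0a23902618359c5ed5a4e5183dcd62d4941cc520c4106af48b96828b369c1aa39038ac9ec49860d5e99b4f15945cb8354f6250511c8130c1abd3369e2b28b9706a9ec4a0a2390261835146607c3cd7716cd25583a2c535064906b38bdab49ca307b9ac5a928398a418820d671183d0735ed57358520e9392d491041abd22e5a0a2cda706a8e40e2b27b12618359c5ed5a4e5183dcd62d4941cc520c4106b38bdab49ca307b9ac5a928398a418820d671183d0735ed57358520e9392d491041abd3369e2b28b9706a9ec4a0a23902618359c5ed5a4e5183dcd62d4941cc520c4106b38bdab49ca307b9ac5a928398a418820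
  (Nat.mul 5 (Nat.add (Nat.mul 27 c) i))) 32

def t30 (T e : ℕ) : ℕ := Nat.mod (Nat.shiftRight T (Nat.mul 30 e)) 1073741824
def lk (L i k : ℕ) : ℕ := Nat.mod (Nat.shiftRight L (Nat.mul 16 (Nat.add (Nat.mul 64 i) k))) 65536

/-- selection by the type of a triple code -/
def selT (c x0 x1 x3 x5 y : ℕ) : ℕ :=
  cond (Nat.beq (tyN c) 1) x1 (cond (Nat.beq (tyN c) 3) x3 (cond (Nat.beq (tyN c) 5) x5
    (cond (Nat.beq (tyN c) 0) x0 y)))

def q3N (T0 T1 T3 T5 B κ c i j : ℕ) : ℕ :=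
  Nat.add (selT c (t30 T0 (Nat.add (Nat.mul 27 (pa c i)) (pa c j)))
    (t30 T1 (Nat.add (Nat.mul 27 (pa c i)) (pa c j)))
    (t30 T3 (Nat.add (Nat.mul 27 (pa c i)) (pa c j)))
    (t30 T5 (Nat.add (Nat.mul 27 (pa c i)) (pa c j))) 536870912) (Nat.mul κ (eN B c))
def q1N (TK i j : ℕ) : ℕ := t30 TK (Nat.add (Nat.mul 27 i) j)

def leafG (q3 : ℕ → ℕ → ℕ → ℕ) (q1 : ℕ → ℕ → ℕ)
    (d01 e01 d02 e02 d03 e03 d04 e04 d12 e12 d13 e13 d14 e14 d23 e23 d24 e24 d34 e34 : ℕ) : ℕ :=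
  Nat.add (Nat.add (q3 (cd d01 d02 d12) (cd d03 d13 d23) (cd d04 d14 d24))
    (Nat.add (q3 (cd d01 d03 d13) (cd d02 d12 e23) (cd d04 d14 d34))
    (Nat.add (q3 (cd d01 d04 d14) (cd d02 d12 e24) (cd d03 d13 e34))
    (Nat.add (q3 (cd d02 d03 d23) (cd d01 e12 e13) (cd d04 d24 d34))
    (Nat.add (q3 (cd d02 d04 d24) (cd d01 e12 e14) (cd d03 d23 e34))
    (Nat.add (q3 (cd d03 d04 d34) (cd d01 e13 e14) (cd d02 e23 e24))
    (Nat.add (q3 (cd d12 d13 d23) (cd e01 e02 e03) (cd d14 d24 d34))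
    (Nat.add (q3 (cd d12 d14 d24) (cd e01 e02 e04) (cd d13 d23 e34))
    (Nat.add (q3 (cd d13 d14 d34) (cd e01 e03 e04) (cd d12 e23 e24))
    (q3 (cd d23 d24 d34) (cd e02 e03 e04) (cd e12 e13 e14)))))))))))
   (Nat.add (q1 (cd d01 d02 d12) (cd d03 d04 d34))
    (Nat.add (q1 (cd d01 d03 d13) (cd d02 d04 d24))
    (Nat.add (q1 (cd d01 d04 d14) (cd d02 d03 d23))
    (Nat.add (q1 (cd e01 d12 d02) (cd d13 d14 d34))
    (Nat.add (q1 (cd e01 d13 d03) (cd d12 d14 d24))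
    (Nat.add (q1 (cd e01 d14 d04) (cd d12 d13 d23))
    (Nat.add (q1 (cd e02 e12 d01) (cd d23 d24 d34))
    (Nat.add (q1 (cd e02 d23 d03) (cd e12 d24 d14))
    (Nat.add (q1 (cd e02 d24 d04) (cd e12 d23 d13))
    (Nat.add (q1 (cd e03 e13 d01) (cd e23 d34 d24))
    (Nat.add (q1 (cd e03 e23 d02) (cd e13 d34 d14))
    (Nat.add (q1 (cd e03 d34 d04) (cd e13 e23 d12))
    (Nat.add (q1 (cd e04 e14 d01) (cd e24 e34 d23))
    (Nat.add (q1 (cd e04 e24 d02) (cd e14 e34 d13))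
    (q1 (cd e04 e34 d03) (cd e14 e24 d12))))))))))))))))

def chkI (q3 : ℕ → ℕ → ℕ → ℕ) (q1 : ℕ → ℕ → ℕ) (B X d01 e01 d02 e02 d12 e12 : ℕ) : Bool :=
  A3 fun d03 e03 => A3 fun d13 e13 => A3 fun d23 e23 =>
  cond (Nat.beq (fourN B d01 d02 d03 d12 d13 d23) 4) true
  (A3 fun d04 e04 => A3 fun d14 e14 => A3 fun d24 e24 =>
  cond (Nat.beq (fourN B d01 d02 d04 d12 d14 d24) 4) true
  (A3 fun d34 e34 => cond (Nat.beq (fourN B d01 d03 d04 d13 d14 d34) 4) true
  (cond (Nat.beq (fourN B d02 d03 d04 d23 d24 d34) 4) true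
  (cond (Nat.beq (fourN B d12 d13 d14 d23 d24 d34) 4) true
  (Nat.ble (leafG q3 q1 d01 e01 d02 e02 d03 e03 d04 e04 d12 e12 d13 e13 d14 e14 d23 e23 d24 e24
    d34 e34) X)))))

def psB (L r i j v : ℕ) : Bool :=
  Nat.beq (Nat.add (Nat.add (nsum r fun k => Nat.mul (lk L i k) (lk L j k))
      (Nat.mul 1073741824 r)) 536870912)
    (Nat.add v (Nat.mul 32768 (nsum r fun k => Nat.add (lk L i k) (lk L j k))))

def chkT (T L r : ℕ) : Bool :=
  nall 27 fun i => nall 27 fun j => psB L r i j (t30 T (Nat.add (Nat.mul 27 i) j))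

theorem pa_lt : (nall 27 fun c => nall 27 fun i => Nat.ble (Nat.succ (pa c i)) 27) = true := by
  decide +kernel

theorem ty_nn : (nall 27 fun c => Nat.ble (tyN c) 6) = true := by decide +kernel

/-- all checks for one rule -/
structure Cert5 (M B T0 T1 T3 T5 TK L0 L1 L3 L5 LK r K κ X : ℕ) : Prop where
  hB : Nat.beq B (bt M) = true
  hκ : Nat.beq κ (Nat.mul 9 K) = true
  hX : Nat.beq X (Nat.add (Nat.mul 50 K) 13421772800) = true
  h0 : chkT T0 L0 r = true
  h1 : chkT T1 L1 r = true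
  h3 : chkT T3 L3 r = true
  h5 : chkT T5 L5 r = true
  hk : chkT TK LK r = true
  hc : ∀ d01 e01 d02 e02 d12 e12 : ℕ, Pr d01 e01 → Pr d02 e02 → Pr d12 e12 →
    chkI (q3N T0 T1 T3 T5 B κ) (q1N TK) B X d01 e01 d02 e02 d12 e12 = true

open scoped Classical

theorem psB_eq {L r i j v : ℕ} (h : psB L r i j v = true) :
    (v : ℤ) = ∑ k ∈ range r, ((lk L i k : ℤ) - 32768) * ((lk L j k : ℤ) - 32768) + 536870912 := by
  have h1 := Nat.eq_of_beq_eq_true h
  rw [nsum_eq, nsum_eq] at h1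
  have h2 := congrArg (fun n : ℕ => (n : ℤ)) h1
  simp only [Nat.add_eq, Nat.mul_eq] at h2
  push_cast at h2
  rw [expand, card_range]
  push_cast
  linarith

theorem t30_lt (T e : ℕ) : t30 T e < 1073741824 := Nat.mod_lt _ (by norm_num)

theorem five_bound {M B T0 T1 T3 T5 TK L0 L1 L3 L5 LK r K κ X : ℕ}
    (h : Cert5 M B T0 T1 T3 T5 TK L0 L1 L3 L5 LK r K κ X)
    {V : Type} [Fintype V] (hn : 0 < Fintype.card V) (rel : V → V → ℕ)
    (hrel : ∀ x y, Pr (rel x y) (rel y x))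
    (hK : ∀ x : Fin 4 → V, Function.Injective x → fourN B (rel (x 0) (x 1)) (rel (x 0) (x 2))
      (rel (x 0) (x 3)) (rel (x 1) (x 2)) (rel (x 1) (x 3)) (rel (x 2) (x 3)) ≠ 4) :
    90 * (K : ℝ) * ((∑ a, ∑ b, ∑ c, (eN B (c3 rel a b c) : ℝ)) / (Fintype.card V : ℝ) ^ 3)
      ≤ 50 * (K : ℝ) + 10 * (26843545600 + 90 * (K : ℝ)) / (Fintype.card V : ℝ) := by
  have hκ := Nat.eq_of_beq_eq_true h.hκ
  have hX := Nat.eq_of_beq_eq_true h.hX
  simp only [Nat.add_eq, Nat.mul_eq] at hκ hX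
  have hpa : ∀ c i, c < 27 → i < 27 → pa c i < 27 := fun c i hc hi =>
    Nat.le_of_ble_eq_true (nall_true (nall_true pa_lt c hc) i hi)
  have hbeq : ∀ a b : ℕ, Nat.beq a b = true → a = b := fun a b h => Nat.eq_of_beq_eq_true h
  have key := flag5 hn rel hrel r r (50 * (K : ℝ) + 13421772800)
    (26843545600 + 90 * (K : ℝ)) (by positivity) (q3N T0 T1 T3 T5 B κ)
    (fun c i k => selT c (lk L0 (pa c i) k) (lk L1 (pa c i) k) (lk L3 (pa c i) k)
      (lk L5 (pa c i) k) 32768) (q1N TK) (lk LK) 32768 32768 536870912 536870912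
    (fun c => (κ : ℤ) * (eN B c : ℤ)) ?_ ?_ ?_ ?_
  · have e : ∑ a, ∑ b, ∑ c, (((κ : ℤ) * (eN B (c3 rel a b c) : ℤ) : ℤ) : ℝ)
        = 9 * (K : ℝ) * ∑ a, ∑ b, ∑ c, (eN B (c3 rel a b c) : ℝ) := by
      rw [hκ]
      simp only [mul_sum]
      refine sum_congr rfl fun a _ => sum_congr rfl fun b _ => sum_congr rfl fun c _ => ?_
      push_cast
      ring
    rw [e] at key
    push_cast at key
    rw [mul_div_assoc] at key
    linarith
  · intro c i j hc hi hj
    have hi' := hpa c i hc hi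
    have hj' := hpa c j hc hj
    unfold q3N
    simp only [Nat.add_eq, Nat.mul_eq]
    push_cast
    have e0 := psB_eq (nall_true (nall_true h.h0 _ hi') _ hj')
    have e1 := psB_eq (nall_true (nall_true h.h1 _ hi') _ hj')
    have e3 := psB_eq (nall_true (nall_true h.h3 _ hi') _ hj')
    have e5 := psB_eq (nall_true (nall_true h.h5 _ hi') _ hj')
    simp only [Nat.add_eq, Nat.mul_eq] at e0 e1 e3 e5
    unfold selT
    cases h1 : Nat.beq (tyN c) 1
    · cases h3 : Nat.beq (tyN c) 3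
      · cases h5 : Nat.beq (tyN c) 5
        · cases h0 : Nat.beq (tyN c) 0
          · simp
          · simp only [cond_true, cond_false, e0]
        · simp only [cond_true, cond_false, e5]
      · simp only [cond_true, cond_false, e3]
    · simp only [cond_true, e1]
  · intro i j hi hj
    exact psB_eq (nall_true (nall_true h.hk i hi) j hj)
  · intro x hx
    have inj4 : ∀ i0 i1 i2 i3 : Fin 5, Function.Injective ![i0, i1, i2, i3] →
        fourN B (rel (x i0) (x i1)) (rel (x i0) (x i2)) (rel (x i0) (x i3)) (rel (x i1) (x i2))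
          (rel (x i1) (x i3)) (rel (x i2) (x i3)) ≠ 4 := fun i0 i1 i2 i3 hi =>
      hK (fun k => x (![i0, i1, i2, i3] k)) (hx.comp hi)
    have ne : ∀ a : ℕ, a ≠ 4 → Nat.beq a 4 = false := fun a ha => by
      cases hb : Nat.beq a 4
      · rfl
      · exact absurd (Nat.eq_of_beq_eq_true hb) ha
    have n1 := ne _ (inj4 0 1 2 3 (by decide))
    have n2 := ne _ (inj4 0 1 2 4 (by decide))
    have n3 := ne _ (inj4 0 1 3 4 (by decide))
    have n4 := ne _ (inj4 0 2 3 4 (by decide))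
    have n5 := ne _ (inj4 1 2 3 4 (by decide))
    have hc := h.hc _ _ _ _ _ _ (hrel (x 0) (x 1)) (hrel (x 0) (x 2)) (hrel (x 1) (x 2))
    have h1 := A3_true (A3_true (A3_true hc (hrel (x 0) (x 3))) (hrel (x 1) (x 3)))
      (hrel (x 2) (x 3))
    rw [n1, cond_false] at h1
    have h2 := A3_true (A3_true (A3_true h1 (hrel (x 0) (x 4))) (hrel (x 1) (x 4)))
      (hrel (x 2) (x 4))
    rw [n2, cond_false] at h2
    have h3 := A3_true h2 (hrel (x 3) (x 4))
    rw [n3, n4, n5, cond_false, cond_false, cond_false] at h3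
    have h4 : Leaf rel (q3N T0 T1 T3 T5 B κ) (q1N TK) x ≤ X := Nat.le_of_ble_eq_true h3
    have h5 : (Leaf rel (q3N T0 T1 T3 T5 B κ) (q1N TK) x : ℝ) ≤ (X : ℝ) := by exact_mod_cast h4
    rw [hX] at h5
    push_cast at h5
    exact h5
  · intro x
    have b3 : ∀ c i j, q3N T0 T1 T3 T5 B κ c i j ≤ 1073741824 + 9 * K := by
      intro c i j
      unfold q3N selT
      simp only [Nat.add_eq, Nat.mul_eq]
      have hb : κ * eN B c ≤ 9 * K := by
        have := eN_le B c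
        rw [hκ]
        calc 9 * K * eN B c ≤ 9 * K * 1 := Nat.mul_le_mul_left _ this
          _ = 9 * K := by ring
      have l0 := t30_lt T0 (27 * pa c i + pa c j)
      have l1 := t30_lt T1 (27 * pa c i + pa c j)
      have l3 := t30_lt T3 (27 * pa c i + pa c j)
      have l5 := t30_lt T5 (27 * pa c i + pa c j)
      cases h1 : Nat.beq (tyN c) 1
      · cases h3 : Nat.beq (tyN c) 3
        · cases h5 : Nat.beq (tyN c) 5
          · cases h0 : Nat.beq (tyN c) 0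
            · simp only [cond_false]; omega
            · simp only [cond_true, cond_false]; omega
          · simp only [cond_true, cond_false]; omega
        · simp only [cond_true, cond_false]; omega
      · simp only [cond_true]; omega
    have b1 : ∀ i j, q1N TK i j ≤ 1073741824 := fun i j => (t30_lt _ _).le
    have hL : Leaf rel (q3N T0 T1 T3 T5 B κ) (q1N TK) x ≤ 10 * (1073741824 + 9 * K)
        + 15 * 1073741824 := by
      unfold Leaf F3 F1
      have c3' := fun c i j => b3 c i j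
      have := b3 (cd (rel (x 0) (x 1)) (rel (x 0) (x 2)) (rel (x 1) (x 2)))
        (cd (rel (x 0) (x 3)) (rel (x 1) (x 3)) (rel (x 2) (x 3)))
        (cd (rel (x 0) (x 4)) (rel (x 1) (x 4)) (rel (x 2) (x 4)))
      refine le_trans (add_le_add (add_le_add (b3 _ _ _) (add_le_add (b3 _ _ _)
        (add_le_add (b3 _ _ _) (add_le_add (b3 _ _ _) (add_le_add (b3 _ _ _)
        (add_le_add (b3 _ _ _) (add_le_add (b3 _ _ _) (add_le_add (b3 _ _ _)
        (add_le_add (b3 _ _ _) (b3 _ _ _))))))))))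
        (add_le_add (b1 _ _) (add_le_add (b1 _ _) (add_le_add (b1 _ _) (add_le_add (b1 _ _)
        (add_le_add (b1 _ _) (add_le_add (b1 _ _) (add_le_add (b1 _ _) (add_le_add (b1 _ _)
        (add_le_add (b1 _ _) (add_le_add (b1 _ _) (add_le_add (b1 _ _) (add_le_add (b1 _ _)
        (add_le_add (b1 _ _) (add_le_add (b1 _ _) (b1 _ _)))))))))))))))) ?_
      omega
    have h5 : (Leaf rel (q3N T0 T1 T3 T5 B κ) (q1N TK) x : ℝ) ≤
        ((10 * (1073741824 + 9 * K) + 15 * 1073741824 : ℕ) : ℝ) := by exact_mod_cast hL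
    push_cast at h5
    have : (0 : ℝ) ≤ (K : ℝ) := by positivity
    linarith

theorem bound5 {n : ℕ} {M B T0 T1 T3 T5 TK L0 L1 L3 L5 LK r K κ X : ℕ}
    (h : Cert5 M B T0 T1 T3 T5 TK L0 L1 L3 L5 LK r K κ X) (hKp : 262144 ≤ K)
    {R : Fin n → Fin n → Prop} (hO : Oriented R) {H : Finset (Finset (Fin n))}
    (h3 : ∀ e ∈ H, e.card = 3) (hK : KF H) (hE : Enc B R H) :
    (H.card : ℝ) ≤ 5 / 54 * (n : ℝ) ^ 3 + 2000 * (n : ℝ) ^ 2 := by
  rcases Nat.eq_zero_or_pos n with rfl | hn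
  · have : H.card = 0 := by
      rw [card_eq_zero, eq_empty_iff_forall_notMem]
      intro e he
      have h5 := h3 e he
      have h6 : e = ∅ := by
        ext v; exact v.elim0
      rw [h6] at h5
      simp at h5
    rw [this]
    norm_num
  · have h1 := five_bound h (V := Fin n) (by rw [Fintype.card_fin]; exact hn) (rl R) (rl_pr R hO)
      (no_four hE hK)
    have h2 := card_le_sum h3 hE
    rw [Fintype.card_fin] at h1
    have hnr : (0 : ℝ) < (n : ℝ) := by exact_mod_cast hn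
    have hKr : (262144 : ℝ) ≤ (K : ℝ) := by exact_mod_cast hKp
    have h4 : 6 * (H.card : ℝ) ≤ ∑ a, ∑ b, ∑ c, (eN B (c3 (rl R) a b c) : ℝ) := by
      have h6 : ((6 * (H.card : ℤ) : ℤ) : ℝ) ≤
        ((∑ a, ∑ b, ∑ c, EE (rl R) (fun c => (eN B c : ℤ)) a b c : ℤ) : ℝ) := by exact_mod_cast h2
      push_cast at h6
      exact h6
    obtain ⟨S, hS⟩ : ∃ S, S = ∑ a, ∑ b, ∑ c, (eN B (c3 (rl R) a b c) : ℝ) := ⟨_, rfl⟩
    rw [← hS] at h1 h4
    have h7 : 90 * (K : ℝ) * S ≤ 50 * (K : ℝ) * (n : ℝ) ^ 3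
        + 10 * (26843545600 + 90 * (K : ℝ)) * (n : ℝ) ^ 2 := by
      have h8 := mul_le_mul_of_nonneg_right h1 (by positivity : (0 : ℝ) ≤ (n : ℝ) ^ 3)
      have e1 : 90 * (K : ℝ) * (S / (n : ℝ) ^ 3) * (n : ℝ) ^ 3 = 90 * (K : ℝ) * S := by
        field_simp
      have e2 : (50 * (K : ℝ) + 10 * (26843545600 + 90 * (K : ℝ)) / (n : ℝ)) * (n : ℝ) ^ 3
          = 50 * (K : ℝ) * (n : ℝ) ^ 3 + 10 * (26843545600 + 90 * (K : ℝ)) * (n : ℝ) ^ 2 := by
        field_simp
      rw [e1, e2] at h8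
      exact h8
    have h9 : 10 * (26843545600 + 90 * (K : ℝ)) * (n : ℝ) ^ 2 ≤ (K : ℝ) * 1024900 * (n : ℝ) ^ 2 := by
      have : 10 * (26843545600 + 90 * (K : ℝ)) ≤ (K : ℝ) * 1024900 := by nlinarith
      exact mul_le_mul_of_nonneg_right this (by positivity)
    have h10 : (K : ℝ) * (90 * S) ≤ (K : ℝ) * (50 * (n : ℝ) ^ 3 + 1024900 * (n : ℝ) ^ 2) := by
      linarith
    have h11 := le_of_mul_le_mul_left h10 (by linarith)
    nlinarith

end Pool.Agent.W38.TO
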