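import Pool.Agent.W38.TO.Cert4a
import Pool.Agent.W38.TO.Cert4b
import Pool.Agent.W38.TO.Cert4c
import Pool.Agent.W38.TO.Cert4d
import Pool.Agent.W38.TO.Cert4e
import Pool.Agent.W38.TO.Cert4f
import Pool.Agent.W38.TO.Cert4g
import Pool.Agent.W38.TO.Cert4h
import Pool.Agent.W38.TO.Cert4i
import Pool.Agent.W38.TO.Cert4j
import Pool.Agent.W38.TO.Cert4k
import Pool.Agent.W38.TO.Cert4l
import Pool.Agent.W38.TO.Cert4m
import Pool.Agent.W38.TO.Cert4n
import Pool.Agent.W38.TO.Bridge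

/-! All certificates with four vertices. -/

set_option autoImplicit false
set_option maxRecDepth 100000

namespace Pool.Agent.W38.TO

/-- the rule `M` has a certificate -/
def Good (M : ℕ) : Prop := ∃ B T L D K κ X1 X2 : ℕ, 0 < K ∧ chk M B T L D K κ X1 X2 = true

theorem g0 : Good 0 := ⟨_, _, _, _, _, _, _, _, by norm_num, c0⟩
theorem g1 : Good 1 := ⟨_, _, _, _, _, _, _, _, by norm_num, c1⟩
theorem g2 : Good 2 := ⟨_, _, _, _, _, _, _, _, by norm_num, c2⟩
theorem g3 : Good 3 := ⟨_, _, _, _, _, _, _, _, by norm_num, c3⟩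
theorem g4 : Good 4 := ⟨_, _, _, _, _, _, _, _, by norm_num, c4⟩
theorem g5 : Good 5 := ⟨_, _, _, _, _, _, _, _, by norm_num, c5⟩
theorem g7 : Good 7 := ⟨_, _, _, _, _, _, _, _, by norm_num, c7⟩
theorem g8 : Good 8 := ⟨_, _, _, _, _, _, _, _, by norm_num, c8⟩
theorem g9 : Good 9 := ⟨_, _, _, _, _, _, _, _, by norm_num, c9⟩
theorem g10 : Good 10 := ⟨_, _, _, _, _, _, _, _, by norm_num, c10⟩
theorem g11 : Good 11 := ⟨_, _, _, _, _, _, _, _, by norm_num, c11⟩
theorem g12 : Good 12 := ⟨_, _, _, _, _, _, _, _, by norm_num, c12⟩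
theorem g13 : Good 13 := ⟨_, _, _, _, _, _, _, _, by norm_num, c13⟩
theorem g15 : Good 15 := ⟨_, _, _, _, _, _, _, _, by norm_num, c15⟩
theorem g16 : Good 16 := ⟨_, _, _, _, _, _, _, _, by norm_num, c16⟩
theorem g17 : Good 17 := ⟨_, _, _, _, _, _, _, _, by norm_num, c17⟩
theorem g19 : Good 19 := ⟨_, _, _, _, _, _, _, _, by norm_num, c19⟩
theorem g20 : Good 20 := ⟨_, _, _, _, _, _, _, _, by norm_num, c20⟩
theorem g21 : Good 21 := ⟨_, _, _, _, _, _, _, _, by norm_num, c21⟩
theorem g23 : Good 23 := ⟨_, _, _, _, _, _, _, _, by norm_num, c23⟩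
theorem g24 : Good 24 := ⟨_, _, _, _, _, _, _, _, by norm_num, c24⟩
theorem g25 : Good 25 := ⟨_, _, _, _, _, _, _, _, by norm_num, c25⟩
theorem g27 : Good 27 := ⟨_, _, _, _, _, _, _, _, by norm_num, c27⟩
theorem g28 : Good 28 := ⟨_, _, _, _, _, _, _, _, by norm_num, c28⟩
theorem g29 : Good 29 := ⟨_, _, _, _, _, _, _, _, by norm_num, c29⟩
theorem g30 : Good 30 := ⟨_, _, _, _, _, _, _, _, by norm_num, c30⟩
theorem g31 : Good 31 := ⟨_, _, _, _, _, _, _, _, by norm_num, c31⟩
theorem g32 : Good 32 := ⟨_, _, _, _, _, _, _, _, by norm_num, c32⟩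
theorem g33 : Good 33 := ⟨_, _, _, _, _, _, _, _, by norm_num, c33⟩
theorem g34 : Good 34 := ⟨_, _, _, _, _, _, _, _, by norm_num, c34⟩
theorem g35 : Good 35 := ⟨_, _, _, _, _, _, _, _, by norm_num, c35⟩
theorem g36 : Good 36 := ⟨_, _, _, _, _, _, _, _, by norm_num, c36⟩
theorem g37 : Good 37 := ⟨_, _, _, _, _, _, _, _, by norm_num, c37⟩
theorem g38 : Good 38 := ⟨_, _, _, _, _, _, _, _, by norm_num, c38⟩
theorem g39 : Good 39 := ⟨_, _, _, _, _, _, _, _, by norm_num, c39⟩
theorem g40 : Good 40 := ⟨_, _, _, _, _, _, _, _, by norm_num, c40⟩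
theorem g41 : Good 41 := ⟨_, _, _, _, _, _, _, _, by norm_num, c41⟩
theorem g42 : Good 42 := ⟨_, _, _, _, _, _, _, _, by norm_num, c42⟩
theorem g43 : Good 43 := ⟨_, _, _, _, _, _, _, _, by norm_num, c43⟩
theorem g44 : Good 44 := ⟨_, _, _, _, _, _, _, _, by norm_num, c44⟩
theorem g45 : Good 45 := ⟨_, _, _, _, _, _, _, _, by norm_num, c45⟩
theorem g46 : Good 46 := ⟨_, _, _, _, _, _, _, _, by norm_num, c46⟩
theorem g47 : Good 47 := ⟨_, _, _, _, _, _, _, _, by norm_num, c47⟩
theorem g48 : Good 48 := ⟨_, _, _, _, _, _, _, _, by norm_num, c48⟩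
theorem g49 : Good 49 := ⟨_, _, _, _, _, _, _, _, by norm_num, c49⟩
theorem g50 : Good 50 := ⟨_, _, _, _, _, _, _, _, by norm_num, c50⟩
theorem g51 : Good 51 := ⟨_, _, _, _, _, _, _, _, by norm_num, c51⟩
theorem g52 : Good 52 := ⟨_, _, _, _, _, _, _, _, by norm_num, c52⟩
theorem g53 : Good 53 := ⟨_, _, _, _, _, _, _, _, by norm_num, c53⟩
theorem g54 : Good 54 := ⟨_, _, _, _, _, _, _, _, by norm_num, c54⟩
theorem g55 : Good 55 := ⟨_, _, _, _, _, _, _, _, by norm_num, c55⟩
theorem g56 : Good 56 := ⟨_, _, _, _, _, _, _, _, by norm_num, c56⟩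
theorem g57 : Good 57 := ⟨_, _, _, _, _, _, _, _, by norm_num, c57⟩
theorem g58 : Good 58 := ⟨_, _, _, _, _, _, _, _, by norm_num, c58⟩
theorem g59 : Good 59 := ⟨_, _, _, _, _, _, _, _, by norm_num, c59⟩
theorem g60 : Good 60 := ⟨_, _, _, _, _, _, _, _, by norm_num, c60⟩
theorem g61 : Good 61 := ⟨_, _, _, _, _, _, _, _, by norm_num, c61⟩
theorem g62 : Good 62 := ⟨_, _, _, _, _, _, _, _, by norm_num, c62⟩
theorem g63 : Good 63 := ⟨_, _, _, _, _, _, _, _, by norm_num, c63⟩
theorem g64 : Good 64 := ⟨_, _, _, _, _, _, _, _, by norm_num, c64⟩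
theorem g65 : Good 65 := ⟨_, _, _, _, _, _, _, _, by norm_num, c65⟩
theorem g66 : Good 66 := ⟨_, _, _, _, _, _, _, _, by norm_num, c66⟩
theorem g67 : Good 67 := ⟨_, _, _, _, _, _, _, _, by norm_num, c67⟩
theorem g68 : Good 68 := ⟨_, _, _, _, _, _, _, _, by norm_num, c68⟩
theorem g69 : Good 69 := ⟨_, _, _, _, _, _, _, _, by norm_num, c69⟩
theorem g71 : Good 71 := ⟨_, _, _, _, _, _, _, _, by norm_num, c71⟩
theorem g72 : Good 72 := ⟨_, _, _, _, _, _, _, _, by norm_num, c72⟩
theorem g73 : Good 73 := ⟨_, _, _, _, _, _, _, _, by norm_num, c73⟩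
theorem g74 : Good 74 := ⟨_, _, _, _, _, _, _, _, by norm_num, c74⟩
theorem g75 : Good 75 := ⟨_, _, _, _, _, _, _, _, by norm_num, c75⟩
theorem g77 : Good 77 := ⟨_, _, _, _, _, _, _, _, by norm_num, c77⟩
theorem g79 : Good 79 := ⟨_, _, _, _, _, _, _, _, by norm_num, c79⟩
theorem g80 : Good 80 := ⟨_, _, _, _, _, _, _, _, by norm_num, c80⟩
theorem g81 : Good 81 := ⟨_, _, _, _, _, _, _, _, by norm_num, c81⟩
theorem g83 : Good 83 := ⟨_, _, _, _, _, _, _, _, by norm_num, c83⟩
theorem g84 : Good 84 := ⟨_, _, _, _, _, _, _, _, by norm_num, c84⟩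
theorem g85 : Good 85 := ⟨_, _, _, _, _, _, _, _, by norm_num, c85⟩
theorem g87 : Good 87 := ⟨_, _, _, _, _, _, _, _, by norm_num, c87⟩
theorem g89 : Good 89 := ⟨_, _, _, _, _, _, _, _, by norm_num, c89⟩
theorem g91 : Good 91 := ⟨_, _, _, _, _, _, _, _, by norm_num, c91⟩
theorem g92 : Good 92 := ⟨_, _, _, _, _, _, _, _, by norm_num, c92⟩
theorem g93 : Good 93 := ⟨_, _, _, _, _, _, _, _, by norm_num, c93⟩
theorem g95 : Good 95 := ⟨_, _, _, _, _, _, _, _, by norm_num, c95⟩
theorem g96 : Good 96 := ⟨_, _, _, _, _, _, _, _, by norm_num, c96⟩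
theorem g97 : Good 97 := ⟨_, _, _, _, _, _, _, _, by norm_num, c97⟩
theorem g98 : Good 98 := ⟨_, _, _, _, _, _, _, _, by norm_num, c98⟩
theorem g99 : Good 99 := ⟨_, _, _, _, _, _, _, _, by norm_num, c99⟩
theorem g100 : Good 100 := ⟨_, _, _, _, _, _, _, _, by norm_num, c100⟩
theorem g101 : Good 101 := ⟨_, _, _, _, _, _, _, _, by norm_num, c101⟩
theorem g103 : Good 103 := ⟨_, _, _, _, _, _, _, _, by norm_num, c103⟩
theorem g104 : Good 104 := ⟨_, _, _, _, _, _, _, _, by norm_num, c104⟩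
theorem g105 : Good 105 := ⟨_, _, _, _, _, _, _, _, by norm_num, c105⟩
theorem g106 : Good 106 := ⟨_, _, _, _, _, _, _, _, by norm_num, c106⟩
theorem g107 : Good 107 := ⟨_, _, _, _, _, _, _, _, by norm_num, c107⟩
theorem g108 : Good 108 := ⟨_, _, _, _, _, _, _, _, by norm_num, c108⟩
theorem g109 : Good 109 := ⟨_, _, _, _, _, _, _, _, by norm_num, c109⟩
theorem g111 : Good 111 := ⟨_, _, _, _, _, _, _, _, by norm_num, c111⟩
theorem g112 : Good 112 := ⟨_, _, _, _, _, _, _, _, by norm_num, c112⟩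
theorem g113 : Good 113 := ⟨_, _, _, _, _, _, _, _, by norm_num, c113⟩
theorem g115 : Good 115 := ⟨_, _, _, _, _, _, _, _, by norm_num, c115⟩
theorem g116 : Good 116 := ⟨_, _, _, _, _, _, _, _, by norm_num, c116⟩
theorem g117 : Good 117 := ⟨_, _, _, _, _, _, _, _, by norm_num, c117⟩
theorem g118 : Good 118 := ⟨_, _, _, _, _, _, _, _, by norm_num, c118⟩
theorem g119 : Good 119 := ⟨_, _, _, _, _, _, _, _, by norm_num, c119⟩
theorem g120 : Good 120 := ⟨_, _, _, _, _, _, _, _, by norm_num, c120⟩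
theorem g121 : Good 121 := ⟨_, _, _, _, _, _, _, _, by norm_num, c121⟩
theorem g123 : Good 123 := ⟨_, _, _, _, _, _, _, _, by norm_num, c123⟩
theorem g124 : Good 124 := ⟨_, _, _, _, _, _, _, _, by norm_num, c124⟩
theorem g125 : Good 125 := ⟨_, _, _, _, _, _, _, _, by norm_num, c125⟩
theorem g126 : Good 126 := ⟨_, _, _, _, _, _, _, _, by norm_num, c126⟩
theorem g127 : Good 127 := ⟨_, _, _, _, _, _, _, _, by norm_num, c127⟩

theorem good_all (M : ℕ) (hM : M < 128) (h6 : M ≠ 6) (h14 : M ≠ 14) (h18 : M ≠ 18) (h22 : M ≠ 22) (h26 : M ≠ 26) (h70 : M ≠ 70) (h76 : M ≠ 76) (h78 : M ≠ 78) (h82 : M ≠ 82) (h86 : M ≠ 86) (h88 : M ≠ 88) (h90 : M ≠ 90) (h94 : M ≠ 94) (h102 : M ≠ 102) (h110 : M ≠ 110) (h114 : M ≠ 114) (h122 : M ≠ 122) : Good M := by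
  interval_cases M
  · exact g0
  · exact g1
  · exact g2
  · exact g3
  · exact g4
  · exact g5
  · exact absurd rfl h6
  · exact g7
  · exact g8
  · exact g9
  · exact g10
  · exact g11
  · exact g12
  · exact g13
  · exact absurd rfl h14
  · exact g15
  · exact g16
  · exact g17
  · exact absurd rfl h18
  · exact g19
  · exact g20
  · exact g21
  · exact absurd rfl h22
  · exact g23
  · exact g24
  · exact g25
  · exact absurd rfl h26
  · exact g27
  · exact g28
  · exact g29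
  · exact g30
  · exact g31
  · exact g32
  · exact g33
  · exact g34
  · exact g35
  · exact g36
  · exact g37
  · exact g38
  · exact g39
  · exact g40
  · exact g41
  · exact g42
  · exact g43
  · exact g44
  · exact g45
  · exact g46
  · exact g47
  · exact g48
  · exact g49
  · exact g50
  · exact g51
  · exact g52
  · exact g53
  · exact g54
  · exact g55
  · exact g56
  · exact g57
  · exact g58
  · exact g59
  · exact g60
  · exact g61
  · exact g62
  · exact g63
  · exact g64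
  · exact g65
  · exact g66
  · exact g67
  · exact g68
  · exact g69
  · exact absurd rfl h70
  · exact g71
  · exact g72
  · exact g73
  · exact g74
  · exact g75
  · exact absurd rfl h76
  · exact g77
  · exact absurd rfl h78
  · exact g79
  · exact g80
  · exact g81
  · exact absurd rfl h82
  · exact g83
  · exact g84
  · exact g85
  · exact absurd rfl h86
  · exact g87
  · exact absurd rfl h88
  · exact g89
  · exact absurd rfl h90
  · exact g91
  · exact g92
  · exact g93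
  · exact absurd rfl h94
  · exact g95
  · exact g96
  · exact g97
  · exact g98
  · exact g99
  · exact g100
  · exact g101
  · exact absurd rfl h102
  · exact g103
  · exact g104
  · exact g105
  · exact g106
  · exact g107
  · exact g108
  · exact g109
  · exact absurd rfl h110
  · exact g111
  · exact g112
  · exact g113
  · exact absurd rfl h114
  · exact g115
  · exact g116
  · exact g117
  · exact g118
  · exact g119
  · exact g120
  · exact g121
  · exact absurd rfl h122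
  · exact g123
  · exact g124
  · exact g125
  · exact g126
  · exact g127

end Pool.Agent.W38.TO
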