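import Pool.Agent.W38.TO.Sum4

/-! Kernel-reducible checker for the certificates with four vertices. -/

set_option autoImplicit false
set_option maxRecDepth 100000
open Finset
open scoped Classical

namespace Pool.Agent.W38.TO

open Pool.Agent.H122R2.FdF

def tT (T e : ℕ) : ℕ := Nat.mod (Nat.shiftRight T (Nat.mul 26 e)) 67108864
def qN (T s i j : ℕ) : ℕ :=
  cond (Nat.beq s 2) 33554432 (tT T (Nat.add (Nat.mul 81 s) (Nat.add (Nat.mul 9 i) j)))
def zN (T i j : ℕ) : ℕ := tT T (Nat.add 162 (Nat.add (Nat.mul 3 i) j))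
def lN (L s i k : ℕ) : ℕ := Nat.mod (Nat.shiftRight L
  (Nat.mul 12 (Nat.add (Nat.mul 108 s) (Nat.add (Nat.mul 12 i) k)))) 4096
def dN (D s k : ℕ) : ℕ := Nat.mod (Nat.shiftRight D (Nat.mul 20 (Nat.add (Nat.mul 12 s) k))) 1048576
def eN (B c : ℕ) : ℕ := Nat.mod (Nat.shiftRight B c) 2
def at3 (i j : ℕ) : ℕ := Nat.add i (Nat.mul 3 j)

def fourN (B d01 d02 d03 d12 d13 d23 : ℕ) : ℕ :=
  Nat.add (eN B (cd d01 d02 d12)) (Nat.add (eN B (cd d01 d03 d13))
    (Nat.add (eN B (cd d02 d03 d23)) (eN B (cd d12 d13 d23))))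

def leafN (T B κ d01 e01 d02 e02 d03 e03 d12 e12 d13 e13 d23 e23 : ℕ) : ℕ :=
  Nat.add (Nat.add
    (Nat.add (qN T d01 (at3 d02 d12) (at3 d03 d13)) (Nat.add (qN T e01 (at3 d12 d02) (at3 d13 d03))
    (Nat.add (qN T d02 (at3 d01 e12) (at3 d03 d23)) (Nat.add (qN T e02 (at3 e12 d01) (at3 d23 d03))
    (Nat.add (qN T d03 (at3 d01 e13) (at3 d02 e23)) (Nat.add (qN T e03 (at3 e13 d01) (at3 e23 d02))
    (Nat.add (qN T d12 (at3 e01 e02) (at3 d13 d23)) (Nat.add (qN T e12 (at3 e02 e01) (at3 d23 d13))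
    (Nat.add (qN T d13 (at3 e01 e03) (at3 d12 e23)) (Nat.add (qN T e13 (at3 e03 e01) (at3 e23 d12))
    (Nat.add (qN T d23 (at3 e02 e03) (at3 e12 e13)) (qN T e23 (at3 e03 e02) (at3 e13 e12)))))))))))))
    (Nat.add (zN T d01 d23) (Nat.add (zN T d02 d13) (zN T d03 d12))))
    (Nat.mul κ (fourN B d01 d02 d03 d12 d13 d23))

def chkN (T B κ X1 X2 : ℕ) : Bool :=
  A3 fun d01 e01 => A3 fun d02 e02 => A3 fun d12 e12 => A3 fun d03 e03 => A3 fun d13 e13 =>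
  A3 fun d23 e23 => cond (Nat.beq (fourN B d01 d02 d03 d12 d13 d23) 4)
    (Nat.ble (leafN T B κ d01 e01 d02 e02 d03 e03 d12 e12 d13 e13 d23 e23) X2)
    (Nat.ble (leafN T B κ d01 e01 d02 e02 d03 e03 d12 e12 d13 e13 d23 e23) X1)

def psN (L D s i j v : ℕ) : Bool :=
  Nat.beq (Nat.add (Nat.add (nsum 12 fun k => Nat.mul (dN D s k) (Nat.mul (lN L s i k) (lN L s j k)))
      (Nat.mul 4194304 (nsum 12 fun k => dN D s k))) 33554432)
    (Nat.add v (Nat.mul 2048 (nsum 12 fun k => Nat.mul (dN D s k) (Nat.add (lN L s i k) (lN L s j k)))))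

def chkP (T L D : ℕ) : Bool :=
  and (nall 9 fun i => nall 9 fun j => and (psN L D 0 i j (qN T 0 i j)) (psN L D 1 i j (qN T 1 i j)))
    (nall 3 fun i => nall 3 fun j => psN L D 2 i j (zN T i j))

/-- isomorphism types of triple codes: 0 empty, 1 one arc, 2 in-star, 3 path, 4 out-star,
5 transitive triangle, 6 cyclic triangle -/
def tyN (c : ℕ) : ℕ := Nat.mod (Nat.shiftRight 0x16cd5b46e76a8ca65c248 (Nat.mul 3 c)) 8
/-- edge table of a rule -/
def bt (M : ℕ) : ℕ := nsum 27 fun c => Nat.mul (Nat.pow 2 c) (eN M (tyN c))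

def chk (M B T L D K κ X1 X2 : ℕ) : Bool :=
  and (and (Nat.beq B (bt M)) (and (Nat.beq κ (Nat.mul 9 K))
    (and (Nat.beq X1 (Nat.add (Nat.mul 20 K) 503316480))
      (Nat.beq X2 (Nat.add (Nat.mul 180 K) 503316480)))))
    (and (chkP T L D) (chkN T B κ X1 X2))

theorem tT_lt (T e : ℕ) : tT T e < 67108864 := Nat.mod_lt _ (by norm_num)

theorem eN_le (B c : ℕ) : eN B c ≤ 1 := by
  have : eN B c < 2 := Nat.mod_lt _ (by norm_num)
  omega

theorem expand_d (s : Finset ℕ) (d u v : ℕ → ℕ) (B : ℤ) :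
    ∑ k ∈ s, (d k : ℤ) * ((u k : ℤ) - B) * ((v k : ℤ) - B) =
      ∑ k ∈ s, (d k : ℤ) * ((u k : ℤ) * (v k : ℤ)) - B * ∑ k ∈ s, (d k : ℤ) * ((u k : ℤ) + (v k : ℤ))
        + B ^ 2 * ∑ k ∈ s, (d k : ℤ) := by
  rw [mul_sum, mul_sum, ← sum_sub_distrib, ← sum_add_distrib]
  exact sum_congr rfl fun k _ => by ring

theorem ps_eq {L D s i j v : ℕ} (h : psN L D s i j v = true) :
    (v : ℤ) - 33554432 = ∑ k ∈ range 12, (dN D s k : ℤ) * ((lN L s i k : ℤ) - 2048)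
      * ((lN L s j k : ℤ) - 2048) := by
  have h1 := Nat.eq_of_beq_eq_true h
  rw [nsum_eq, nsum_eq, nsum_eq] at h1
  have h2 := congrArg (fun n : ℕ => (n : ℤ)) h1
  simp only [Nat.add_eq, Nat.mul_eq] at h2
  push_cast at h2
  rw [expand_d]
  linarith

section
variable {V : Type} (rel : V → V → ℕ)

theorem leaf_eq (T B κ : ℕ) (x : Fin 4 → V) :
    (leafN T B κ (rel (x 0) (x 1)) (rel (x 1) (x 0)) (rel (x 0) (x 2)) (rel (x 2) (x 0))
      (rel (x 0) (x 3)) (rel (x 3) (x 0)) (rel (x 1) (x 2)) (rel (x 2) (x 1))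
      (rel (x 1) (x 3)) (rel (x 3) (x 1)) (rel (x 2) (x 3)) (rel (x 3) (x 2)) : ℤ)
    = Leaf4 rel (fun s i j => (qN T s i j : ℤ) - 33554432) (fun i j => (zN T i j : ℤ) - 33554432)
        (fun c => (eN B c : ℤ)) (κ : ℤ) x + 503316480 := by
  unfold leafN Leaf4 QQ ZZ EE fourN at2 at3
  simp only [Nat.add_eq, Nat.mul_eq]
  push_cast
  ring
end

theorem sound {M B T L D K κ X1 X2 : ℕ} (h : chk M B T L D K κ X1 X2 = true)
    {V : Type} [Fintype V] (rel : V → V → ℕ) (hrel : ∀ x y, Pr (rel x y) (rel y x))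
    (hK : ∀ x : Fin 4 → V, Function.Injective x → fourN B (rel (x 0) (x 1)) (rel (x 0) (x 2))
      (rel (x 0) (x 3)) (rel (x 1) (x 2)) (rel (x 1) (x 3)) (rel (x 2) (x 3)) ≠ 4) :
    36 * (K : ℤ) * (Fintype.card V : ℤ) * (∑ a, ∑ b, ∑ c, EE rel (fun c => (eN B c : ℤ)) a b c)
      ≤ 20 * (K : ℤ) * (Fintype.card V : ℤ) ^ 4 + 960 * (K : ℤ) * (Fintype.card V : ℤ) ^ 3 := by
  unfold chk at h
  simp only [Bool.and_eq_true] at h
  obtain ⟨⟨-, hκ, hX1, hX2⟩, hP, hN⟩ := h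
  have hκ := Nat.eq_of_beq_eq_true hκ
  have hX1 := Nat.eq_of_beq_eq_true hX1
  have hX2 := Nat.eq_of_beq_eq_true hX2
  simp only [Nat.add_eq, Nat.mul_eq] at hκ hX1 hX2
  unfold chkP at hP
  simp only [Bool.and_eq_true] at hP
  obtain ⟨hP1, hP2⟩ := hP
  have hlt : ∀ x y, rel x y < 3 := fun x y => by
    rcases hrel x y with ⟨h, -⟩ | ⟨h, -⟩ | ⟨h, -⟩ <;> omega
  have hleaf : ∀ x : Fin 4 → V, cond (Nat.beq (fourN B (rel (x 0) (x 1)) (rel (x 0) (x 2))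
      (rel (x 0) (x 3)) (rel (x 1) (x 2)) (rel (x 1) (x 3)) (rel (x 2) (x 3))) 4)
      (Nat.ble (leafN T B κ (rel (x 0) (x 1)) (rel (x 1) (x 0)) (rel (x 0) (x 2)) (rel (x 2) (x 0))
      (rel (x 0) (x 3)) (rel (x 3) (x 0)) (rel (x 1) (x 2)) (rel (x 2) (x 1))
      (rel (x 1) (x 3)) (rel (x 3) (x 1)) (rel (x 2) (x 3)) (rel (x 3) (x 2))) X2)
      (Nat.ble (leafN T B κ (rel (x 0) (x 1)) (rel (x 1) (x 0)) (rel (x 0) (x 2)) (rel (x 2) (x 0))
      (rel (x 0) (x 3)) (rel (x 3) (x 0)) (rel (x 1) (x 2)) (rel (x 2) (x 1))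
      (rel (x 1) (x 3)) (rel (x 3) (x 1)) (rel (x 2) (x 3)) (rel (x 3) (x 2))) X1) = true :=
    fun x => A3_true (A3_true (A3_true (A3_true (A3_true (A3_true hN (hrel (x 0) (x 1)))
      (hrel (x 0) (x 2))) (hrel (x 1) (x 2))) (hrel (x 0) (x 3))) (hrel (x 1) (x 3)))
      (hrel (x 2) (x 3))
  have hinj : ∀ x : Fin 4 → V, Function.Injective x →
      Leaf4 rel (fun s i j => (qN T s i j : ℤ) - 33554432) (fun i j => (zN T i j : ℤ) - 33554432)
        (fun c => (eN B c : ℤ)) (κ : ℤ) x ≤ 20 * (K : ℤ) := by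
    intro x hx
    have h1 := hleaf x
    have h2 : Nat.beq (fourN B (rel (x 0) (x 1)) (rel (x 0) (x 2))
      (rel (x 0) (x 3)) (rel (x 1) (x 2)) (rel (x 1) (x 3)) (rel (x 2) (x 3))) 4 = false := by
      cases hb : Nat.beq (fourN B (rel (x 0) (x 1)) (rel (x 0) (x 2))
        (rel (x 0) (x 3)) (rel (x 1) (x 2)) (rel (x 1) (x 3)) (rel (x 2) (x 3))) 4
      · rfl
      · exact absurd (Nat.eq_of_beq_eq_true hb) (hK x hx)
    rw [h2] at h1
    have h3 := Nat.le_of_ble_eq_true h1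
    have h4 : ((leafN T B κ (rel (x 0) (x 1)) (rel (x 1) (x 0)) (rel (x 0) (x 2)) (rel (x 2) (x 0))
      (rel (x 0) (x 3)) (rel (x 3) (x 0)) (rel (x 1) (x 2)) (rel (x 2) (x 1))
      (rel (x 1) (x 3)) (rel (x 3) (x 1)) (rel (x 2) (x 3)) (rel (x 3) (x 2)) : ℕ) : ℤ)
      ≤ (X1 : ℤ) := by exact_mod_cast h3
    rw [leaf_eq rel, hX1] at h4
    push_cast at h4
    linarith
  have hall : ∀ x : Fin 4 → V,
      Leaf4 rel (fun s i j => (qN T s i j : ℤ) - 33554432) (fun i j => (zN T i j : ℤ) - 33554432)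
        (fun c => (eN B c : ℤ)) (κ : ℤ) x ≤ 20 * (K : ℤ) + 160 * (K : ℤ) := by
    intro x
    have h1 := hleaf x
    have h4 : ((leafN T B κ (rel (x 0) (x 1)) (rel (x 1) (x 0)) (rel (x 0) (x 2)) (rel (x 2) (x 0))
      (rel (x 0) (x 3)) (rel (x 3) (x 0)) (rel (x 1) (x 2)) (rel (x 2) (x 1))
      (rel (x 1) (x 3)) (rel (x 3) (x 1)) (rel (x 2) (x 3)) (rel (x 3) (x 2)) : ℕ) : ℤ)
      ≤ (X2 : ℤ) := by
      cases hb : Nat.beq (fourN B (rel (x 0) (x 1)) (rel (x 0) (x 2))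
        (rel (x 0) (x 3)) (rel (x 1) (x 2)) (rel (x 1) (x 3)) (rel (x 2) (x 3))) 4
      · rw [hb] at h1
        have h3 := Nat.le_of_ble_eq_true h1
        have h5 : X1 ≤ X2 := by omega
        exact_mod_cast le_trans h3 h5
      · rw [hb] at h1
        exact_mod_cast Nat.le_of_ble_eq_true h1
    rw [leaf_eq rel, hX2] at h4
    push_cast at h4
    linarith
  have key := flag4 rel hlt (fun s i j => (qN T s i j : ℤ) - 33554432)
    (fun i j => (zN T i j : ℤ) - 33554432) (fun c => (eN B c : ℤ)) (κ : ℤ) (20 * (K : ℤ))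
    (160 * (K : ℤ)) (by positivity) (by positivity) 12 12
    (fun s k => if s = 2 then 0 else (dN D s k : ℤ))
    (fun s k => by split_ifs <;> positivity) (fun s i k => (lN L s i k : ℤ) - 2048)
    (fun k => (dN D 2 k : ℤ)) (fun k => by positivity) (fun i k => (lN L 2 i k : ℤ) - 2048)
    ?_ ?_ hinj hall
  · rw [hκ] at key
    push_cast at key
    linarith
  · intro s i j hs hi hj
    have h1 := nall_true (nall_true hP1 i hi) j hj
    simp only [Bool.and_eq_true] at h1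
    interval_cases s
    · simpa using ps_eq h1.1
    · simpa using ps_eq h1.2
    · simp [qN]
  · intro i j hi hj
    exact ps_eq (nall_true (nall_true hP2 i hi) j hj)

end Pool.Agent.W38.TO
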