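import Pool.Agent.W38.TO.Bridge
import Pool.Agent.Results.MP_f1799f_co.FonDerFlaass

/-! Reversing all arcs, and the rule of Fon-der-Flaass. -/

set_option autoImplicit false
set_option maxRecDepth 100000
open Finset

namespace Pool.Agent.W38.TO

open Pool.Agent.H122R2.FdF

theorem iv_iv : ∀ x < 3, iv (iv x) = x := by decide
theorem iv_lt : ∀ x < 3, iv x < 3 := by decide

def revB (M M' : ℕ) : Bool := nall 3 fun x => nall 3 fun y => nall 3 fun z =>
  Nat.beq (eN (bt M') (cd (iv x) (iv y) (iv z))) (eN (bt M) (cd x y z))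

theorem rev_18 : revB 18 6 = true := by decide +kernel
theorem rev_82 : revB 82 70 = true := by decide +kernel
theorem rev_122 : revB 122 110 = true := by decide +kernel
theorem rev_114 : revB 114 102 = true := by decide +kernel
theorem rev_88 : revB 88 76 = true := by decide +kernel

open scoped Classical

/-- all arcs reversed -/
def rv {n : ℕ} (R : Fin n → Fin n → Prop) : Fin n → Fin n → Prop := fun x y => R y x

theorem rv_oriented {n : ℕ} {R : Fin n → Fin n → Prop} (hO : Oriented R) : Oriented (rv R) :=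
  fun x y h => fun h' => hO y x h h'

theorem rl_rv {n : ℕ} {R : Fin n → Fin n → Prop} (hO : Oriented R) (x y : Fin n) :
    rl (rv R) x y = iv (rl R x y) := by
  rw [← rl_iv hO x y]
  rfl

theorem enc_rv {n : ℕ} {M M' : ℕ} (hM : revB M M' = true) {R : Fin n → Fin n → Prop}
    (hO : Oriented R) {H : Finset (Finset (Fin n))} (hE : Enc (bt M) R H) :
    Enc (bt M') (rv R) H := by
  intro a b c hab hac hbc
  rw [hE a b c hab hac hbc]
  have h := Nat.eq_of_beq_eq_true (nall_true (nall_true (nall_true hM _ (rl_lt R a b)) _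
    (rl_lt R a c)) _ (rl_lt R b c))
  unfold code
  rw [rl_rv hO, rl_rv hO, rl_rv hO, h]

theorem rl_of {n : ℕ} {R : Fin n → Fin n → Prop} {x y : Fin n} (h : R x y) : rl R x y = 1 := by
  unfold rl
  rw [if_pos h]

theorem rl_of' {n : ℕ} {R : Fin n → Fin n → Prop} (hO : Oriented R) {x y : Fin n} (h : R y x) :
    rl R x y = 2 := by
  unfold rl
  rw [if_neg (hO _ _ h), if_pos h]

theorem rl_none {n : ℕ} {R : Fin n → Fin n → Prop} {x y : Fin n} (h : ¬ R x y) (h' : ¬ R y x) :
    rl R x y = 0 := by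
  unfold rl
  rw [if_neg h, if_neg h']

theorem path_edge {n : ℕ} {R : Fin n → Fin n → Prop} (hO : Oriented R)
    {H : Finset (Finset (Fin n))} (hE : Enc (bt 76) R H) {a b c : Fin n} (h1 : R a b) (h2 : R b c)
    (h3 : ¬ R a c) (h4 : ¬ R c a) : ({a, b, c} : Finset (Fin n)) ∈ H := by
  have hab : a ≠ b := fun h => by subst h; exact hO a a h1 h1
  have hbc : b ≠ c := fun h => by subst h; exact hO b b h2 h2
  have hac : a ≠ c := fun h => by subst h; exact hO a b h1 h2
  rw [hE a b c hab hac hbc]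
  unfold code
  rw [rl_of h1, rl_of h2, rl_none h3 h4]
  decide +kernel

theorem noC4 {n : ℕ} {R : Fin n → Fin n → Prop} (hO : Oriented R)
    {H : Finset (Finset (Fin n))} (hK : KF H) (hE : Enc (bt 76) R H) :
    Pool.Agent.Results.MP_f1799f_co.FonDerFlaass.NoInducedC4 R := by
  rintro ⟨a, b, c, d, h1, h2, h3, h4, h5, h6, h7, h8⟩
  have hab : a ≠ b := fun h => by subst h; exact hO a a h1 h1
  have hbc : b ≠ c := fun h => by subst h; exact hO b b h2 h2
  have hcd : c ≠ d := fun h => by subst h; exact hO c c h3 h3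
  have hda : d ≠ a := fun h => by subst h; exact hO d d h4 h4
  have hac : a ≠ c := fun h => by subst h; exact hO a b h1 h2
  have hbd : b ≠ d := fun h => by subst h; exact hO b c h2 h3
  have e1 := path_edge hO hE h1 h2 h5 h6
  have e2 := path_edge hO hE h2 h3 h7 h8
  have e3 := path_edge hO hE h3 h4 h6 h5
  have e4 := path_edge hO hE h4 h1 h8 h7
  refine four_sets hK hab hac hda.symm hbc hbd hcd e1 ?_ ?_ e2
  · have e : ({a, b, d} : Finset (Fin n)) = {d, a, b} := by
      rw [pair_comm b d, insert_comm a d]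
    rw [e]; exact e4
  · have e : ({a, c, d} : Finset (Fin n)) = {c, d, a} := by
      rw [insert_comm a c, pair_comm a d]
    rw [e]; exact e3

def nfB : Bool := nall 3 fun x => nall 3 fun y => nall 3 fun z =>
  or (not (Nat.beq (eN (bt 76) (cd x y z)) 1))
    (not (or (or (and (Nat.beq x 0) (Nat.beq y 0)) (and (Nat.beq x 0) (Nat.beq z 0)))
      (or (and (Nat.beq y 0) (Nat.beq z 0)) (or (and (Nat.beq x 1) (Nat.beq y 1))
        (or (and (Nat.beq x 2) (Nat.beq z 1)) (and (Nat.beq y 2) (Nat.beq z 2)))))))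

theorem nfB_true : nfB = true := by decide +kernel

theorem nf_codes {x y z : ℕ} (hx : x < 3) (hy : y < 3) (hz : z < 3)
    (h : eN (bt 76) (cd x y z) = 1) :
    ¬ (x = 0 ∧ y = 0) ∧ ¬ (x = 0 ∧ z = 0) ∧ ¬ (y = 0 ∧ z = 0) ∧ ¬ (x = 1 ∧ y = 1) ∧
      ¬ (x = 2 ∧ z = 1) ∧ ¬ (y = 2 ∧ z = 2) := by
  have h1 := nall_true (nall_true (nall_true nfB_true x hx) y hy) z hz
  rw [h] at h1
  interval_cases x <;> interval_cases y <;> interval_cases z <;> simp_all

theorem sub_construction {n : ℕ} {R : Fin n → Fin n → Prop} (hO : Oriented R)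
    {H : Finset (Finset (Fin n))} (h3 : ∀ e ∈ H, e.card = 3) (hE : Enc (bt 76) R H) :
    H ⊆ Pool.Agent.Results.MP_f1799f_co.FonDerFlaass.construction R := by
  intro e he
  have hc := h3 e he
  unfold Pool.Agent.Results.MP_f1799f_co.FonDerFlaass.construction
  rw [mem_sdiff, mem_powersetCard]
  refine ⟨⟨subset_univ _, hc⟩, ?_⟩
  intro hf
  unfold Pool.Agent.Results.MP_f1799f_co.FonDerFlaass.fdf at hf
  obtain ⟨-, x, hx, hf⟩ := mem_filter.mp hf
  obtain ⟨a, b, c, hab, hac, hbc, rfl⟩ := Finset.card_eq_three.mp hc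
  have h := (hE a b c hab hac hbc).mp he
  obtain ⟨n1, n2, n3, n4, n5, n6⟩ := nf_codes (rl_lt R a b) (rl_lt R a c) (rl_lt R b c) h
  have ma : a ∈ ({a, b, c} : Finset (Fin n)) := by simp
  have mb : b ∈ ({a, b, c} : Finset (Fin n)) := by simp
  have mc : c ∈ ({a, b, c} : Finset (Fin n)) := by simp
  simp only [mem_insert, mem_singleton] at hx
  rcases hx with rfl | rfl | rfl
  · rcases hf with hf | hf
    · exact n1 ⟨rl_none (hf b mb hab.symm).1 (hf b mb hab.symm).2,
        rl_none (hf c mc hac.symm).1 (hf c mc hac.symm).2⟩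
    · exact n4 ⟨rl_of (hf b mb hab.symm), rl_of (hf c mc hac.symm)⟩
  · rcases hf with hf | hf
    · exact n2 ⟨rl_none (hf a ma hab).2 (hf a ma hab).1,
        rl_none (hf c mc hbc.symm).1 (hf c mc hbc.symm).2⟩
    · exact n5 ⟨rl_of' hO (hf a ma hab), rl_of (hf c mc hbc.symm)⟩
  · rcases hf with hf | hf
    · exact n3 ⟨rl_none (hf a ma hac).2 (hf a ma hac).1,
        rl_none (hf b mb hbc).2 (hf b mb hbc).1⟩
    · exact n6 ⟨rl_of' hO (hf a ma hac), rl_of' hO (hf b mb hbc)⟩

theorem bound76 {n : ℕ} {R : Fin n → Fin n → Prop} (hO : Oriented R)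
    {H : Finset (Finset (Fin n))} (h3 : ∀ e ∈ H, e.card = 3) (hK : KF H)
    (hE : Enc (bt 76) R H) : (H.card : ℝ) ≤ 5 / 54 * (n : ℝ) ^ 3 := by
  have h1 := Pool.Agent.Results.MP_f1799f_co.FonDerFlaass.construction_upper R hO (noC4 hO hK hE)
  have h2 : (H.card : ℝ) ≤
      ((Pool.Agent.Results.MP_f1799f_co.FonDerFlaass.construction R).card : ℝ) := by
    exact_mod_cast card_le_card (sub_construction hO h3 hE)
  linarith

end Pool.Agent.W38.TO
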