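import Pool.Agent.W38.TO.All4
import Pool.Agent.W38.TO.Rev
import Pool.Agent.W38.TO.R94
import Pool.Agent.W38.TO.R86
import Pool.Agent.W38.TO.R22
import Pool.Agent.W38.TO.R6
import Pool.Agent.W38.TO.R110
import Pool.Agent.W38.TO.R102
import Pool.Agent.W38.TO.R70

/-! The bound for all rules with a certificate. -/

set_option autoImplicit false
set_option maxRecDepth 100000
open Finset

namespace Pool.Agent.W38.TO

open Pool.Agent.H122R2.FdF

open scoped Classical

theorem main_enc {n : ℕ} {R : Fin n → Fin n → Prop} (hO : Oriented R)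
    {H : Finset (Finset (Fin n))} (h3 : ∀ e ∈ H, e.card = 3) (hK : KF H) (M : ℕ) (hM : M < 128)
    (hE : Enc (bt M) R H) (h14 : M ≠ 14) (h26 : M ≠ 26) (h78 : M ≠ 78) (h90 : M ≠ 90) :
    (H.card : ℝ) ≤ 5 / 54 * (n : ℝ) ^ 3 + 2000 * (n : ℝ) ^ 2 := by
  by_cases e6 : M = 6
  · subst e6
    have hB := Nat.eq_of_beq_eq_true R6.cert.hB
    exact bound5 R6.cert (by norm_num) hO h3 hK (by rw [hB]; exact hE)
  by_cases e18 : M = 18
  · subst e18
    have hB := Nat.eq_of_beq_eq_true R6.cert.hB
    exact bound5 R6.cert (by norm_num) (rv_oriented hO) h3 hK (by rw [hB]; exact enc_rv rev_18 hO hE)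
  by_cases e22 : M = 22
  · subst e22
    have hB := Nat.eq_of_beq_eq_true R22.cert.hB
    exact bound5 R22.cert (by norm_num) hO h3 hK (by rw [hB]; exact hE)
  by_cases e86 : M = 86
  · subst e86
    have hB := Nat.eq_of_beq_eq_true R86.cert.hB
    exact bound5 R86.cert (by norm_num) hO h3 hK (by rw [hB]; exact hE)
  by_cases e94 : M = 94
  · subst e94
    have hB := Nat.eq_of_beq_eq_true R94.cert.hB
    exact bound5 R94.cert (by norm_num) hO h3 hK (by rw [hB]; exact hE)
  by_cases e110 : M = 110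
  · subst e110
    have hB := Nat.eq_of_beq_eq_true R110.cert.hB
    exact bound5 R110.cert (by norm_num) hO h3 hK (by rw [hB]; exact hE)
  by_cases e122 : M = 122
  · subst e122
    have hB := Nat.eq_of_beq_eq_true R110.cert.hB
    exact bound5 R110.cert (by norm_num) (rv_oriented hO) h3 hK (by rw [hB]; exact enc_rv rev_122 hO hE)
  by_cases e102 : M = 102
  · subst e102
    have hB := Nat.eq_of_beq_eq_true R102.cert.hB
    exact bound5 R102.cert (by norm_num) hO h3 hK (by rw [hB]; exact hE)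
  by_cases e114 : M = 114
  · subst e114
    have hB := Nat.eq_of_beq_eq_true R102.cert.hB
    exact bound5 R102.cert (by norm_num) (rv_oriented hO) h3 hK (by rw [hB]; exact enc_rv rev_114 hO hE)
  by_cases e70 : M = 70
  · subst e70
    have hB := Nat.eq_of_beq_eq_true R70.cert.hB
    exact bound5 R70.cert (by norm_num) hO h3 hK (by rw [hB]; exact hE)
  by_cases e82 : M = 82
  · subst e82
    have hB := Nat.eq_of_beq_eq_true R70.cert.hB
    exact bound5 R70.cert (by norm_num) (rv_oriented hO) h3 hK (by rw [hB]; exact enc_rv rev_82 hO hE)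
  by_cases e76 : M = 76
  · subst e76
    have := bound76 hO h3 hK hE
    have h2 : (0 : ℝ) ≤ 2000 * (n : ℝ) ^ 2 := by positivity
    linarith
  by_cases e88 : M = 88
  · subst e88
    have := bound76 (rv_oriented hO) h3 hK (enc_rv rev_88 hO hE)
    have h2 : (0 : ℝ) ≤ 2000 * (n : ℝ) ^ 2 := by positivity
    linarith
  obtain ⟨B, T, L, D, K, κ, X1, X2, hKp, hc⟩ := good_all M hM e6 h14 e18 e22 h26 e70 e76 h78 e82 e86
    e88 h90 e94 e102 e110 e114 e122
  have hB : B = bt M := by
    have h := hc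
    unfold chk at h
    simp only [Bool.and_eq_true] at h
    exact Nat.eq_of_beq_eq_true h.1.1
  have h := bound4 hc hKp hO h3 hK (by rw [hB]; exact hE)
  have h2 : (0 : ℝ) ≤ (n : ℝ) ^ 2 := by positivity
  linarith

theorem main_rule {n : ℕ} {R : Fin n → Fin n → Prop} (hO : Oriented R)
    {H : Finset (Finset (Fin n))} (h3 : ∀ e ∈ H, e.card = 3) (hK : KF H) (hA : Alike R H)
    (hx : ¬ HasType R H 1 ∨ HasType R H 0 ∨ (HasType R H 2 ↔ HasType R H 4) ∨
      HasType R H 5 ∨ ¬ HasType R H 3) :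
    (H.card : ℝ) ≤ 5 / 54 * (n : ℝ) ^ 3 + 2000 * (n : ℝ) ^ 2 := by
  have b : ∀ t < 7, eN (rule R H) t = if HasType R H t then 1 else 0 := rule_bit R H
  have b0 := b 0 (by norm_num)
  have b1 := b 1 (by norm_num)
  have b2 := b 2 (by norm_num)
  have b3 := b 3 (by norm_num)
  have b4 := b 4 (by norm_num)
  have b5 := b 5 (by norm_num)
  have b6 := b 6 (by norm_num)
  refine main_enc hO h3 hK (rule R H) (rule_lt R H) (enc_rule hO hA) ?_ ?_ ?_ ?_ <;>
  · intro h
    rw [h] at b0 b1 b2 b3 b4 b5 b6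
    revert hx b0 b1 b2 b3 b4 b5 b6
    by_cases h0 : HasType R H 0 <;> by_cases h1 : HasType R H 1 <;>
    by_cases h2 : HasType R H 2 <;> by_cases h3 : HasType R H 3 <;>
    by_cases h4 : HasType R H 4 <;> by_cases h5 : HasType R H 5 <;>
    by_cases h6 : HasType R H 6 <;> simp [h0, h1, h2, h3, h4, h5, h6, eN] 

end Pool.Agent.W38.TO
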