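import Pool.Agent.H122R2.FdF.FlagAux

/-! Sums over quadruples of vertices: the sum of squares argument with four vertices. -/

set_option autoImplicit false
open Finset
open scoped Classical

namespace Pool.Agent.W38.TO

open Pool.Agent.H122R2.FdF

theorem psum4 {V : Type} [Fintype V] (F : V → V → V → V → ℤ) (g : Fin 4 → Fin 4)
    (hg : Function.Bijective g) :
    ∑ x : Fin 4 → V, F (x (g 0)) (x (g 1)) (x (g 2)) (x (g 3))
      = ∑ x : Fin 4 → V, F (x 0) (x 1) (x 2) (x 3) := by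
  have h := Equiv.sum_comp (Equiv.arrowCongr (Equiv.ofBijective g hg).symm (Equiv.refl V))
    (fun x => F (x 0) (x 1) (x 2) (x 3))
  rw [← h]
  refine sum_congr rfl fun x _ => ?_
  rfl

def e4 (V : Type) : (Fin 4 → V) ≃ V × V × V × V where
  toFun x := (x 0, x 1, x 2, x 3)
  invFun p := ![p.1, p.2.1, p.2.2.1, p.2.2.2]
  left_inv x := by funext i; fin_cases i <;> rfl
  right_inv p := rfl

theorem conv4 {V : Type} [Fintype V] (F : V → V → V → V → ℤ) :
    ∑ x : Fin 4 → V, F (x 0) (x 1) (x 2) (x 3) = ∑ a, ∑ b, ∑ c, ∑ d, F a b c d := by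
  rw [← Equiv.sum_comp (e4 V).symm]
  simp only [Fintype.sum_prod_type]
  rfl

/-- number of non-injective quadruples, weighted -/
theorem ninj4 {V : Type} [Fintype V] (W : ℤ) (hW : 0 ≤ W) :
    ∑ x : Fin 4 → V, (if Function.Injective x then 0 else W) ≤ 6 * W * (Fintype.card V : ℤ) ^ 3 := by
  have h1 : ∀ x : Fin 4 → V, (if Function.Injective x then 0 else W) ≤
      (if x 0 = x 1 then W else 0) + (if x 0 = x 2 then W else 0) + (if x 0 = x 3 then W else 0)
      + (if x 1 = x 2 then W else 0) + (if x 1 = x 3 then W else 0)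
      + (if x 2 = x 3 then W else 0) := by
    intro x
    have p : ∀ q : Prop, 0 ≤ (if q then W else 0) := fun q => by split_ifs <;> simp [hW]
    have p1 := p (x 0 = x 1)
    have p2 := p (x 0 = x 2)
    have p3 := p (x 0 = x 3)
    have p4 := p (x 1 = x 2)
    have p5 := p (x 1 = x 3)
    have p6 := p (x 2 = x 3)
    by_cases hi : Function.Injective x
    · rw [if_pos hi]; linarith
    · rw [if_neg hi]
      by_cases a1 : x 0 = x 1
      · rw [if_pos a1] at *; linarith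
      by_cases a2 : x 0 = x 2
      · rw [if_pos a2] at *; linarith
      by_cases a3 : x 0 = x 3
      · rw [if_pos a3] at *; linarith
      by_cases a4 : x 1 = x 2
      · rw [if_pos a4] at *; linarith
      by_cases a5 : x 1 = x 3
      · rw [if_pos a5] at *; linarith
      by_cases a6 : x 2 = x 3
      · rw [if_pos a6] at *; linarith
      exfalso
      apply hi
      intro i j hij
      fin_cases i <;> fin_cases j <;> first
        | rfl
        | exact absurd hij a1 | exact absurd hij a2 | exact absurd hij a3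
        | exact absurd hij a4 | exact absurd hij a5 | exact absurd hij a6
        | exact absurd hij.symm a1 | exact absurd hij.symm a2 | exact absurd hij.symm a3
        | exact absurd hij.symm a4 | exact absurd hij.symm a5 | exact absurd hij.symm a6
  refine le_trans (sum_le_sum fun x _ => h1 x) ?_
  simp only [sum_add_distrib]
  have base : ∑ x : Fin 4 → V, (if x 0 = x 1 then W else 0) = W * (Fintype.card V : ℤ) ^ 3 := by
    rw [conv4 (fun a b _ _ => if a = b then W else 0)]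
    have h2 : ∀ a b : V, ∑ _c : V, ∑ _d : V, (if a = b then W else 0)
        = if a = b then (Fintype.card V : ℤ) * ((Fintype.card V : ℤ) * W) else 0 := by
      intro a b
      simp only [sum_const, card_univ, nsmul_eq_mul]
      split_ifs <;> simp
    rw [sum_congr rfl fun a _ => sum_congr rfl fun b _ => h2 a b]
    simp only [sum_ite_eq, mem_univ, if_true, sum_const, card_univ, nsmul_eq_mul]
    ring
  have e02 : ∑ x : Fin 4 → V, (if x 0 = x 2 then W else 0) = W * (Fintype.card V : ℤ) ^ 3 :=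
    (psum4 (V := V) (fun a b _ _ => if a = b then W else 0) ![0, 2, 1, 3] (by decide)).trans base
  have e03 : ∑ x : Fin 4 → V, (if x 0 = x 3 then W else 0) = W * (Fintype.card V : ℤ) ^ 3 :=
    (psum4 (V := V) (fun a b _ _ => if a = b then W else 0) ![0, 3, 1, 2] (by decide)).trans base
  have e12 : ∑ x : Fin 4 → V, (if x 1 = x 2 then W else 0) = W * (Fintype.card V : ℤ) ^ 3 :=
    (psum4 (V := V) (fun a b _ _ => if a = b then W else 0) ![1, 2, 0, 3] (by decide)).trans base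
  have e13 : ∑ x : Fin 4 → V, (if x 1 = x 3 then W else 0) = W * (Fintype.card V : ℤ) ^ 3 :=
    (psum4 (V := V) (fun a b _ _ => if a = b then W else 0) ![1, 3, 0, 2] (by decide)).trans base
  have e23 : ∑ x : Fin 4 → V, (if x 2 = x 3 then W else 0) = W * (Fintype.card V : ℤ) ^ 3 :=
    (psum4 (V := V) (fun a b _ _ => if a = b then W else 0) ![2, 3, 0, 1] (by decide)).trans base
  linarith

section
variable {V : Type} (rel : V → V → ℕ)

/-- attachment code of `c` to the pair `a b` -/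
def at2 (a b c : V) : ℕ := rel a c + 3 * rel b c

def QQ (q : ℕ → ℕ → ℕ → ℤ) (a b c d : V) : ℤ := q (rel a b) (at2 rel a b c) (at2 rel a b d)
def ZZ (z : ℕ → ℕ → ℤ) (a b c d : V) : ℤ := z (rel a b) (rel c d)
def EE (eb : ℕ → ℤ) (a b c : V) : ℤ := eb (cd (rel a b) (rel a c) (rel b c))

def Leaf4 (q : ℕ → ℕ → ℕ → ℤ) (z : ℕ → ℕ → ℤ) (eb : ℕ → ℤ) (κ : ℤ) (x : Fin 4 → V) : ℤ :=
  (QQ rel q (x 0) (x 1) (x 2) (x 3) + (QQ rel q (x 1) (x 0) (x 2) (x 3) +
  (QQ rel q (x 0) (x 2) (x 1) (x 3) + (QQ rel q (x 2) (x 0) (x 1) (x 3) +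
  (QQ rel q (x 0) (x 3) (x 1) (x 2) + (QQ rel q (x 3) (x 0) (x 1) (x 2) +
  (QQ rel q (x 1) (x 2) (x 0) (x 3) + (QQ rel q (x 2) (x 1) (x 0) (x 3) +
  (QQ rel q (x 1) (x 3) (x 0) (x 2) + (QQ rel q (x 3) (x 1) (x 0) (x 2) +
  (QQ rel q (x 2) (x 3) (x 0) (x 1) + QQ rel q (x 3) (x 2) (x 0) (x 1))))))))))))
  + (ZZ rel z (x 0) (x 1) (x 2) (x 3) + (ZZ rel z (x 0) (x 2) (x 1) (x 3)
    + ZZ rel z (x 0) (x 3) (x 1) (x 2)))
  + κ * (EE rel eb (x 0) (x 1) (x 2) + (EE rel eb (x 0) (x 1) (x 3)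
    + (EE rel eb (x 0) (x 2) (x 3) + EE rel eb (x 1) (x 2) (x 3))))
end

theorem psd_nonneg {ι : Type} [Fintype ι] (s : Finset ℕ) (dd : ℕ → ℤ) (hd : ∀ k, 0 ≤ dd k)
    (u : ℕ → ι → ℤ) : 0 ≤ ∑ c, ∑ d, ∑ k ∈ s, dd k * u k c * u k d := by
  have h : ∑ c, ∑ d, ∑ k ∈ s, dd k * u k c * u k d = ∑ k ∈ s, dd k * (∑ c, u k c) ^ 2 := by
    calc ∑ c, ∑ d, ∑ k ∈ s, dd k * u k c * u k d
        = ∑ c, ∑ k ∈ s, ∑ d, dd k * u k c * u k d := sum_congr rfl fun c _ => sum_comm
      _ = ∑ k ∈ s, ∑ c, ∑ d, dd k * u k c * u k d := sum_comm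
      _ = ∑ k ∈ s, dd k * (∑ c, u k c) ^ 2 := by
          refine sum_congr rfl fun k _ => ?_
          rw [sq, Finset.sum_mul_sum, mul_sum]
          refine sum_congr rfl fun c _ => ?_
          rw [mul_sum]
          exact sum_congr rfl fun d _ => by ring
  rw [h]
  exact sum_nonneg fun k _ => mul_nonneg (hd k) (sq_nonneg _)

theorem flag4 {V : Type} [Fintype V] (rel : V → V → ℕ) (hrel : ∀ x y, rel x y < 3)
    (q : ℕ → ℕ → ℕ → ℤ) (z : ℕ → ℕ → ℤ) (eb : ℕ → ℤ) (κ C W : ℤ) (hC : 0 ≤ C) (hW : 0 ≤ W)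
    (r r' : ℕ) (dd : ℕ → ℕ → ℤ) (hd : ∀ s k, 0 ≤ dd s k) (l : ℕ → ℕ → ℕ → ℤ)
    (dz : ℕ → ℤ) (hdz : ∀ k, 0 ≤ dz k) (lz : ℕ → ℕ → ℤ)
    (hq : ∀ s i j, s < 3 → i < 9 → j < 9 → q s i j = ∑ k ∈ range r, dd s k * l s i k * l s j k)
    (hz : ∀ i j, i < 3 → j < 3 → z i j = ∑ k ∈ range r', dz k * lz i k * lz j k)
    (hinj : ∀ x : Fin 4 → V, Function.Injective x → Leaf4 rel q z eb κ x ≤ C)
    (hall : ∀ x : Fin 4 → V, Leaf4 rel q z eb κ x ≤ C + W) :
    4 * κ * (Fintype.card V : ℤ) * (∑ a, ∑ b, ∑ c, EE rel eb a b c)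
      ≤ C * (Fintype.card V : ℤ) ^ 4 + 6 * W * (Fintype.card V : ℤ) ^ 3 := by
  have hat : ∀ a b c : V, at2 rel a b c < 9 := fun a b c => by
    have h1 := hrel a c
    have h2 := hrel b c
    unfold at2
    omega
  have PQ : 0 ≤ ∑ x : Fin 4 → V, QQ rel q (x 0) (x 1) (x 2) (x 3) := by
    rw [conv4 (QQ rel q)]
    refine sum_nonneg fun a _ => sum_nonneg fun b _ => ?_
    have h := psd_nonneg (ι := V) (range r) (dd (rel a b)) (hd _)
      (fun k c => l (rel a b) (at2 rel a b c) k)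
    refine le_of_le_of_eq h (sum_congr rfl fun c _ => sum_congr rfl fun d _ => ?_)
    unfold QQ
    rw [hq _ _ _ (hrel _ _) (hat _ _ _) (hat _ _ _)]
  have PZ : 0 ≤ ∑ x : Fin 4 → V, ZZ rel z (x 0) (x 1) (x 2) (x 3) := by
    rw [conv4 (ZZ rel z)]
    have h := psd_nonneg (ι := V × V) (range r') dz hdz (fun k p => lz (rel p.1 p.2) k)
    simp only [Fintype.sum_prod_type] at h
    refine le_of_le_of_eq h (sum_congr rfl fun a _ => sum_congr rfl fun b _ =>
      sum_congr rfl fun c _ => sum_congr rfl fun d _ => ?_)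
    unfold ZZ
    rw [hz _ _ (hrel _ _) (hrel _ _)]
  have fE : ∑ x : Fin 4 → V, EE rel eb (x 0) (x 1) (x 2)
      = (Fintype.card V : ℤ) * ∑ a, ∑ b, ∑ c, EE rel eb a b c := by
    rw [conv4 (fun a b c _ => EE rel eb a b c)]
    simp only [sum_const, card_univ, nsmul_eq_mul, mul_sum]
  have fQ : ∀ i0 i1 i2 i3 : Fin 4, Function.Bijective ![i0, i1, i2, i3] →
      ∑ x : Fin 4 → V, QQ rel q (x i0) (x i1) (x i2) (x i3)
      = ∑ x : Fin 4 → V, QQ rel q (x 0) (x 1) (x 2) (x 3) :=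
    fun i0 i1 i2 i3 hg => psum4 (QQ rel q) ![i0, i1, i2, i3] hg
  have fZ : ∀ i0 i1 i2 i3 : Fin 4, Function.Bijective ![i0, i1, i2, i3] →
      ∑ x : Fin 4 → V, ZZ rel z (x i0) (x i1) (x i2) (x i3)
      = ∑ x : Fin 4 → V, ZZ rel z (x 0) (x 1) (x 2) (x 3) :=
    fun i0 i1 i2 i3 hg => psum4 (ZZ rel z) ![i0, i1, i2, i3] hg
  have fEE : ∀ i0 i1 i2 i3 : Fin 4, Function.Bijective ![i0, i1, i2, i3] →
      ∑ x : Fin 4 → V, EE rel eb (x i0) (x i1) (x i2)
      = ∑ x : Fin 4 → V, EE rel eb (x 0) (x 1) (x 2) :=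
    fun i0 i1 i2 i3 hg => psum4 (fun a b c _ => EE rel eb a b c) ![i0, i1, i2, i3] hg
  have e : ∑ x : Fin 4 → V, Leaf4 rel q z eb κ x
      = 12 * (∑ x : Fin 4 → V, QQ rel q (x 0) (x 1) (x 2) (x 3))
        + 3 * (∑ x : Fin 4 → V, ZZ rel z (x 0) (x 1) (x 2) (x 3))
        + 4 * κ * ((Fintype.card V : ℤ) * ∑ a, ∑ b, ∑ c, EE rel eb a b c) := by
    simp only [Leaf4, sum_add_distrib, ← mul_sum]
    rw [fQ 1 0 2 3 (by decide), fQ 0 2 1 3 (by decide), fQ 2 0 1 3 (by decide),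
      fQ 0 3 1 2 (by decide), fQ 3 0 1 2 (by decide), fQ 1 2 0 3 (by decide),
      fQ 2 1 0 3 (by decide), fQ 1 3 0 2 (by decide), fQ 3 1 0 2 (by decide),
      fQ 2 3 0 1 (by decide), fQ 3 2 0 1 (by decide), fZ 0 2 1 3 (by decide),
      fZ 0 3 1 2 (by decide), fEE 0 1 3 2 (by decide), fEE 0 2 3 1 (by decide),
      fEE 1 2 3 0 (by decide), fE]
    ring
  have up : ∑ x : Fin 4 → V, Leaf4 rel q z eb κ x
      ≤ C * (Fintype.card V : ℤ) ^ 4 + 6 * W * (Fintype.card V : ℤ) ^ 3 := by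
    have h1 : ∀ x : Fin 4 → V, Leaf4 rel q z eb κ x ≤ C + (if Function.Injective x then 0 else W) := by
      intro x
      by_cases hi : Function.Injective x
      · rw [if_pos hi, add_zero]; exact hinj x hi
      · rw [if_neg hi]; exact hall x
    refine le_trans (sum_le_sum fun x _ => h1 x) ?_
    rw [sum_add_distrib]
    have h2 : ∑ _x : Fin 4 → V, C = C * (Fintype.card V : ℤ) ^ 4 := by
      rw [sum_const, card_univ, Fintype.card_fun, Fintype.card_fin, nsmul_eq_mul]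
      push_cast
      ring
    rw [h2]
    have := ninj4 (V := V) W hW
    linarith
  rw [e] at up
  linarith

end Pool.Agent.W38.TO
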