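import Pool.Agent.H122R2.FdF.TaskK1

/-! The sum of squares argument with five vertices, allowing bad non-injective tuples. -/

set_option autoImplicit false
open Finset
open scoped Classical

namespace Pool.Agent.W38.TO

open Pool.Agent.H122R2.FdF Pool.Agent.H122R2.FdF.K1

theorem ninj5 {V : Type} [Fintype V] (W : ℝ) (hW : 0 ≤ W) (hn : 0 < Fintype.card V) :
    ∑ x : Fin 5 → V, (∏ _i : Fin 5, (1 / (Fintype.card V : ℝ))) *
      (if Function.Injective x then 0 else W) ≤ 10 * W / (Fintype.card V : ℝ) := by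
  obtain ⟨N, hN⟩ : ∃ N : ℝ, N = (Fintype.card V : ℝ) := ⟨_, rfl⟩
  have hNp : 0 < N := by rw [hN]; exact_mod_cast hn
  rw [← hN]
  have key : ∀ i j : Fin 5, i ≠ j → ∑ x : Fin 5 → V, (∏ _i : Fin 5, (1 / N)) *
      (if x i = x j then W else 0) = W / N := by
    intro i j hij
    have hc : (univ.filter fun x : Fin 5 → V => x i = x j).card = Fintype.card V ^ 4 := by
      let f : ({k : Fin 5 // k ≠ j} → V) → (Fin 5 → V) :=
        fun y k => if h : k = j then y ⟨i, hij⟩ else y ⟨k, h⟩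
      have hf : Function.Injective f := by
        intro y y' h
        funext k
        have h2 := congrFun h k.1
        simp only [f, dif_neg k.2] at h2
        exact h2
      have e : (univ.filter fun x : Fin 5 → V => x i = x j) = univ.image f := by
        ext x
        simp only [mem_filter, mem_univ, true_and, mem_image]
        constructor
        · intro h
          refine ⟨fun k => x k.1, ?_⟩
          funext k
          by_cases hk : k = j
          · simp only [f, dif_pos hk]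
            rw [hk]; exact h
          · simp only [f, dif_neg hk]
        · rintro ⟨y, rfl⟩
          simp only [f, dif_neg hij, dif_pos]
      rw [e, card_image_of_injective _ hf, card_univ, Fintype.card_fun]
      congr 1
      simp
    rw [← mul_sum, sum_ite, sum_const_zero, add_zero, sum_const, hc, nsmul_eq_mul]
    simp only [prod_const, card_univ, Fintype.card_fin]
    push_cast
    rw [← hN]
    field_simp
  have h1 : ∀ x : Fin 5 → V, (∏ _i : Fin 5, (1 / N)) * (if Function.Injective x then 0 else W) ≤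
      ∑ p ∈ (univ : Finset (Fin 5 × Fin 5)).filter (fun p => p.1 < p.2),
        (∏ _i : Fin 5, (1 / N)) * (if x p.1 = x p.2 then W else 0) := by
    intro x
    have hp : 0 ≤ (∏ _i : Fin 5, (1 / N)) := prod_nonneg fun _ _ => by positivity
    rw [← mul_sum]
    refine mul_le_mul_of_nonneg_left ?_ hp
    have hnn : ∀ p ∈ (univ : Finset (Fin 5 × Fin 5)).filter (fun p => p.1 < p.2),
        0 ≤ (if x p.1 = x p.2 then W else 0) := fun p _ => by split_ifs; exacts [hW, le_rfl]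
    by_cases hi : Function.Injective x
    · rw [if_pos hi]; exact sum_nonneg hnn
    · rw [if_neg hi]
      unfold Function.Injective at hi
      push Not at hi
      obtain ⟨i, j, hij, hne⟩ := hi
      rcases lt_or_gt_of_ne hne with h | h
      · have := single_le_sum hnn (mem_filter.mpr ⟨mem_univ (i, j), h⟩)
        simpa [hij] using this
      · have := single_le_sum hnn (mem_filter.mpr ⟨mem_univ (j, i), h⟩)
        simpa [hij.symm] using this
  refine le_trans (sum_le_sum fun x _ => h1 x) ?_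
  rw [sum_comm]
  have h2 : ∑ p ∈ (univ : Finset (Fin 5 × Fin 5)).filter (fun p => p.1 < p.2),
      ∑ x : Fin 5 → V, (∏ _i : Fin 5, (1 / N)) * (if x p.1 = x p.2 then W else 0)
      = ∑ p ∈ (univ : Finset (Fin 5 × Fin 5)).filter (fun p => p.1 < p.2), W / N :=
    sum_congr rfl fun p hp => key p.1 p.2 (ne_of_lt (mem_filter.mp hp).2)
  rw [h2, sum_const, show ((univ : Finset (Fin 5 × Fin 5)).filter (fun p => p.1 < p.2)).card = 10
    by decide, nsmul_eq_mul]
  apply le_of_eq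
  push_cast
  ring

theorem flag5 {V : Type} [Fintype V] (hn : 0 < Fintype.card V) (rel : V → V → ℕ)
    (hrel : ∀ x y, Pr (rel x y) (rel y x))
    (K3 K1 : ℕ) (C W : ℝ) (hW : 0 ≤ W) (q3 l3 : ℕ → ℕ → ℕ → ℕ) (q1 l1 : ℕ → ℕ → ℕ) (B3 B1 O3 O1 : ℤ)
    (t : ℕ → ℤ)
    (hq3 : ∀ c i j, c < 27 → i < 27 → j < 27 → (q3 c i j : ℤ) =
      ∑ k ∈ range K3, ((l3 c i k : ℤ) - B3) * ((l3 c j k : ℤ) - B3) + O3 + t c)
    (hq1 : ∀ i j, i < 27 → j < 27 → (q1 i j : ℤ) =
      ∑ k ∈ range K1, ((l1 i k : ℤ) - B1) * ((l1 j k : ℤ) - B1) + O1)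
    (hinj : ∀ x : Fin 5 → V, Function.Injective x → (Leaf rel q3 q1 x : ℝ) ≤ C)
    (hall : ∀ x : Fin 5 → V, (Leaf rel q3 q1 x : ℝ) ≤ C + W) :
    10 * ((O3 : ℝ) + (∑ a, ∑ b, ∑ c, (t (c3 rel a b c) : ℝ)) / (Fintype.card V : ℝ) ^ 3)
      + 15 * (O1 : ℝ) ≤ C + 10 * W / (Fintype.card V : ℝ) := by
  obtain ⟨w, hwd⟩ : ∃ w : V → ℝ, w = fun _ => 1 / (Fintype.card V : ℝ) := ⟨_, rfl⟩
  have hNp : (0 : ℝ) < (Fintype.card V : ℝ) := by exact_mod_cast hn
  have hw : ∀ v, 0 ≤ w v := fun v => by rw [hwd]; positivity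
  have h1 : ∑ v, w v = 1 := by
    rw [hwd, sum_const, card_univ, nsmul_eq_mul]
    field_simp
  have L3 := lower3 rel hrel w hw h1 K3 q3 l3 B3 O3 t (fun _ _ => 0) (fun c i j hc hi hj => by
    rw [hq3 c i j hc hi hj]; ring)
  have L1 := lower1 rel hrel w hw h1 K1 q1 l1 B1 O1 hq1
  have f3 : ∀ i0 i1 i2 i3 i4 : Fin 5, Function.Bijective ![i0, i1, i2, i3, i4] →
      ∑ x : Fin 5 → V, (∏ i, w (x i)) * (F3 rel q3 (x i0) (x i1) (x i2) (x i3) (x i4) : ℝ)
      = ∑ x : Fin 5 → V, (∏ i, w (x i)) * (F3 rel q3 (x 0) (x 1) (x 2) (x 3) (x 4) : ℝ) :=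
    fun i0 i1 i2 i3 i4 hg =>
      psumw w (fun a b c d e => (F3 rel q3 a b c d e : ℝ)) ![i0, i1, i2, i3, i4] hg
  have f1 : ∀ i0 i1 i2 i3 i4 : Fin 5, Function.Bijective ![i0, i1, i2, i3, i4] →
      ∑ x : Fin 5 → V, (∏ i, w (x i)) * (F1 rel q1 (x i0) (x i1) (x i2) (x i3) (x i4) : ℝ)
      = ∑ x : Fin 5 → V, (∏ i, w (x i)) * (F1 rel q1 (x 0) (x 1) (x 2) (x 3) (x 4) : ℝ) :=
    fun i0 i1 i2 i3 i4 hg =>
      psumw w (fun a b c d e => (F1 rel q1 a b c d e : ℝ)) ![i0, i1, i2, i3, i4] hg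
  have hC : ∑ x : Fin 5 → V, (∏ i, w (x i)) * C = C := by
    rw [convw w (fun _ _ _ _ _ => C)]
    simp only [mul_assoc, ← mul_sum, sum1 w h1]
  have key : ∑ x : Fin 5 → V, (∏ i, w (x i)) * (Leaf rel q3 q1 x : ℝ)
      ≤ C + 10 * W / (Fintype.card V : ℝ) := by
    have h2 : ∀ x : Fin 5 → V, (∏ i, w (x i)) * (Leaf rel q3 q1 x : ℝ) ≤
        (∏ i, w (x i)) * C + (∏ i, w (x i)) * (if Function.Injective x then 0 else W) := by
      intro x
      rw [← mul_add]
      refine mul_le_mul_of_nonneg_left ?_ (prod_nonneg fun i _ => hw _)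
      by_cases hi : Function.Injective x
      · rw [if_pos hi, add_zero]; exact hinj x hi
      · rw [if_neg hi]; exact hall x
    refine le_trans (sum_le_sum fun x _ => h2 x) ?_
    rw [sum_add_distrib, hC]
    have h3 := ninj5 (V := V) W hW hn
    rw [hwd]
    linarith
  have e : ∑ x : Fin 5 → V, (∏ i, w (x i)) * (Leaf rel q3 q1 x : ℝ)
      = 10 * (∑ x : Fin 5 → V, (∏ i, w (x i)) * (F3 rel q3 (x 0) (x 1) (x 2) (x 3) (x 4) : ℝ))
      + 15 * (∑ x : Fin 5 → V, (∏ i, w (x i)) * (F1 rel q1 (x 0) (x 1) (x 2) (x 3) (x 4) : ℝ)) := by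
    simp only [Leaf, Nat.cast_add, mul_add, sum_add_distrib]
    rw [f3 0 1 3 2 4 (by decide), f3 0 1 4 2 3 (by decide), f3 0 2 3 1 4 (by decide),
      f3 0 2 4 1 3 (by decide), f3 0 3 4 1 2 (by decide), f3 1 2 3 0 4 (by decide),
      f3 1 2 4 0 3 (by decide), f3 1 3 4 0 2 (by decide), f3 2 3 4 0 1 (by decide),
      f1 0 1 3 2 4 (by decide), f1 0 1 4 2 3 (by decide),
      f1 1 0 2 3 4 (by decide), f1 1 0 3 2 4 (by decide), f1 1 0 4 2 3 (by decide),
      f1 2 0 1 3 4 (by decide), f1 2 0 3 1 4 (by decide), f1 2 0 4 1 3 (by decide),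
      f1 3 0 1 2 4 (by decide), f1 3 0 2 1 4 (by decide), f1 3 0 4 1 2 (by decide),
      f1 4 0 1 2 3 (by decide), f1 4 0 2 1 3 (by decide), f1 4 0 3 1 2 (by decide)]
    ring
  rw [e] at key
  have h5 : ∑ a, ∑ b, ∑ c, w a * w b * w c * (t (c3 rel a b c) : ℝ)
      = (∑ a, ∑ b, ∑ c, (t (c3 rel a b c) : ℝ)) / (Fintype.card V : ℝ) ^ 3 := by
    rw [hwd]
    simp only [sum_div]
    refine sum_congr rfl fun a _ => sum_congr rfl fun b _ => sum_congr rfl fun c _ => ?_
    field_simp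
  rw [h5] at L3
  simp only [Int.cast_zero, mul_zero, sum_const_zero, add_zero] at L3
  linarith

end Pool.Agent.W38.TO
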